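import Mathlib

set_option autoImplicit false

/-! # Numerical inequalities -/

namespace Pool.Agent.J4H36.ST

open Finset Filter

theorem num1 (c C : ℝ) (κ s : ℕ) (hc : 0 < c) (hC : 0 ≤ C) (hs : 2 ≤ s) :
    ∀ᶠ N : ℕ in atTop, C * (N : ℝ) ^ (1 - 1 / (s : ℝ)) ≤ c * (N / Real.log N ^ κ) := by
  have hs0 : (0 : ℝ) < 1 / (s : ℝ) := by
    have : (0 : ℝ) < s := by exact_mod_cast (by omega : 0 < s)
    positivity
  have h1 := (isLittleO_log_rpow_rpow_atTop (κ : ℝ) hs0).bound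
    (show 0 < c / (C + 1) by positivity)
  have h2 := (tendsto_natCast_atTop_atTop (R := ℝ)).eventually h1
  filter_upwards [h2, eventually_ge_atTop 3] with N hN hN3
  have hN3' : (3 : ℝ) ≤ N := by exact_mod_cast hN3
  have hN0 : (0 : ℝ) < N := by linarith
  have hlog : 0 < Real.log N := Real.log_pos (by linarith)
  rw [Real.norm_of_nonneg (Real.rpow_nonneg hlog.le _),
    Real.norm_of_nonneg (Real.rpow_nonneg hN0.le _), Real.rpow_natCast] at hN
  have hpow : 0 < Real.log N ^ κ := pow_pos hlog κ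
  have h3 : (N : ℝ) ^ (1 - 1 / (s : ℝ)) * (N : ℝ) ^ (1 / (s : ℝ)) = N := by
    rw [← Real.rpow_add hN0]
    norm_num
  have h4 : 0 < (N : ℝ) ^ (1 - 1 / (s : ℝ)) := Real.rpow_pos_of_pos hN0 _
  rw [← mul_div_assoc, le_div_iff₀ hpow]
  have h5 : C * Real.log N ^ κ ≤ c * (N : ℝ) ^ (1 / (s : ℝ)) := by
    have h6 : (C + 1) * Real.log N ^ κ ≤ c * (N : ℝ) ^ (1 / (s : ℝ)) := by
      calc (C + 1) * Real.log N ^ κ ≤ (C + 1) * (c / (C + 1) * (N : ℝ) ^ (1 / (s : ℝ))) :=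
            mul_le_mul_of_nonneg_left hN (by linarith)
        _ = _ := by field_simp
    nlinarith
  calc C * (N : ℝ) ^ (1 - 1 / (s : ℝ)) * Real.log N ^ κ
      = (N : ℝ) ^ (1 - 1 / (s : ℝ)) * (C * Real.log N ^ κ) := by ring
    _ ≤ (N : ℝ) ^ (1 - 1 / (s : ℝ)) * (c * (N : ℝ) ^ (1 / (s : ℝ))) :=
        mul_le_mul_of_nonneg_left h5 h4.le
    _ = c * ((N : ℝ) ^ (1 - 1 / (s : ℝ)) * (N : ℝ) ^ (1 / (s : ℝ))) := by ring
    _ = c * N := by rw [h3]

theorem num2 (c : ℝ) (C κ : ℕ) (hc : 0 < c) (hC : 1 ≤ C) :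
    ∀ᶠ x : ℕ in atTop, (x : ℝ) / Real.log x ^ (κ + 1) ≤
      c * (((x / C : ℕ) : ℝ) / Real.log ((x / C : ℕ) : ℝ) ^ κ) := by
  have h1 := (Real.tendsto_log_atTop.comp (tendsto_natCast_atTop_atTop (R := ℝ))).eventually_ge_atTop
    (2 * C / c)
  filter_upwards [h1, eventually_ge_atTop (3 * C)] with x hx hx3
  simp only [Function.comp_apply] at hx
  have hN3 : 3 ≤ x / C := (Nat.le_div_iff_mul_le (by omega)).2 hx3
  set N : ℕ := x / C with hN
  have hN3' : (3 : ℝ) ≤ N := by exact_mod_cast hN3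
  have hxN : x ≤ 2 * C * N := by
    have h2 : x < C * (N + 1) := by
      rw [hN]
      exact Nat.lt_mul_div_succ x (by omega)
    nlinarith
  have hxN' : (x : ℝ) ≤ 2 * C * N := by exact_mod_cast hxN
  have hNx : N ≤ x := Nat.div_le_self _ _
  have hNx' : (N : ℝ) ≤ x := by exact_mod_cast hNx
  have hlN : 0 < Real.log N := Real.log_pos (by linarith)
  have hlx : Real.log N ≤ Real.log x := Real.log_le_log (by linarith) hNx'
  have hlx0 : 0 < Real.log x := lt_of_lt_of_le hlN hlx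
  have hpow : Real.log N ^ κ ≤ Real.log x ^ κ := pow_le_pow_left₀ hlN.le hlx κ
  have hp0 : 0 < Real.log N ^ κ := pow_pos hlN κ
  have hp1 : 0 < Real.log x ^ κ := pow_pos hlx0 κ
  rw [pow_succ, ← div_div, div_le_iff₀ hlx0]
  calc (x : ℝ) / Real.log x ^ κ ≤ (2 * C * N) / Real.log x ^ κ := by gcongr
    _ ≤ (2 * C * N) / Real.log N ^ κ := by gcongr
    _ = (2 * C) * (N / Real.log N ^ κ) := by ring
    _ ≤ (c * Real.log x) * (N / Real.log N ^ κ) := by
        apply mul_le_mul_of_nonneg_right _ (by positivity)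
        rw [div_le_iff₀ hc] at hx
        linarith
    _ = c * (N / Real.log N ^ κ) * Real.log x := by ring

end Pool.Agent.J4H36.ST
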