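import Mathlib

set_option autoImplicit false

/-! # Residue classes modulo which given integers are non-residues -/

namespace Pool.Agent.J4H36.ST

open Finset NumberTheorySymbols

/-- the odd part of `|a|` -/
def op (a : ℤ) : ℕ := ordCompl[2] a.natAbs

theorem op_pos {a : ℤ} (ha : a ≠ 0) : 0 < op a := Nat.ordCompl_pos 2 (by simpa using ha)

theorem op_odd {a : ℤ} (ha : a ≠ 0) : Odd (op a) := by
  have h := Nat.not_dvd_ordCompl Nat.prime_two (Int.natAbs_ne_zero.2 ha)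
  rw [Nat.odd_iff]
  unfold op
  omega

theorem op_dvd (a : ℤ) : op a ∣ a.natAbs := Nat.ordCompl_dvd _ _

/-- the symbol `(a / n)`, `n ≡ 1 mod 8`, is the symbol `(n / o)` with the odd part `o` of `a` -/
theorem jac_eq {a : ℤ} (ha : a ≠ 0) {n : ℕ} (hn : n % 8 = 1) : J(a | n) = J((n : ℤ) | op a) := by
  have hodd : Odd n := by rw [Nat.odd_iff]; omega
  have h2 : J(2 | n) = 1 := by
    rw [jacobiSym.at_two hodd]
    have h : ((n : ℕ) : ZMod 8) = ((1 : ℕ) : ZMod 8) :=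
      (ZMod.natCast_eq_natCast_iff' n 1 8).2 (by simpa using hn)
    rw [h]
    simp
  have hm1 : J(-1 | n) = 1 := by
    rw [jacobiSym.at_neg_one hodd]
    have h : ((n : ℕ) : ZMod 4) = ((1 : ℕ) : ZMod 4) :=
      (ZMod.natCast_eq_natCast_iff' n 1 4).2 (by omega)
    rw [h]
    simp
  have hnat : J((a.natAbs : ℤ) | n) = J((n : ℤ) | op a) := by
    have h3 : a.natAbs = 2 ^ (a.natAbs.factorization 2) * op a :=
      (Nat.ordProj_mul_ordCompl_eq_self _ _).symm
    have h4 : ((a.natAbs : ℕ) : ℤ) = 2 ^ (a.natAbs.factorization 2) * (op a : ℤ) := by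
      exact_mod_cast congrArg (fun z : ℕ => (z : ℤ)) h3
    rw [h4, jacobiSym.mul_left, jacobiSym.pow_left, h2, one_pow, one_mul]
    exact jacobiSym.quadratic_reciprocity_one_mod_four' (op_odd ha) (by omega)
  rcases Int.natAbs_eq a with h | h
  · have h5 : J(a | n) = J((a.natAbs : ℤ) | n) := by
      conv_lhs => rw [h]
    rw [h5, hnat]
  · have h5 : J(a | n) = J(-1 * (a.natAbs : ℤ) | n) := by
      conv_lhs => rw [h]
      rw [neg_one_mul]
    rw [h5, jacobiSym.mul_left, hm1, one_mul, hnat]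

/-- the symbol depends on the residue class modulo the odd part only -/
theorem jac_per {o n m : ℕ} (h : n ≡ m [MOD o]) : J((n : ℤ) | o) = J((m : ℤ) | o) :=
  jacobiSym.mod_left' (by exact_mod_cast h)

theorem jac_prime {a : ℤ} {p : ℕ} (hp : p.Prime) (h : ¬ IsSquare ((a : ℤ) : ZMod p)) :
    J(a | p) = -1 := by
  haveI : Fact p.Prime := ⟨hp⟩
  exact ZMod.nonsquare_iff_jacobiSym_eq_neg_one.2 h

theorem not_one_of_jac {a : ℤ} {p : ℕ} (hp : p.Prime) (h2 : p % 8 = 1) (h : J(a | p) = -1) :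
    ((a : ℤ) : ZMod p) ^ ((p - 1) / 2) ≠ 1 ∧ ¬ (p : ℤ) ∣ a := by
  haveI : Fact p.Prime := ⟨hp⟩
  rw [← jacobiSym.legendreSym.to_jacobiSym] at h
  have h1 := legendreSym.eq_pow p a
  rw [h] at h1
  have h3 : p / 2 = (p - 1) / 2 := by omega
  constructor
  · intro h4
    rw [h3, h4] at h1
    have h5 : (2 : ZMod p) = 0 := by
      have : ((-1 : ℤ) : ZMod p) = 1 := h1
      push_cast at this
      linear_combination -this
    have h6 : ((2 : ℕ) : ZMod p) = 0 := by exact_mod_cast h5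
    rw [ZMod.natCast_eq_zero_iff] at h6
    have := Nat.le_of_dvd (by norm_num) h6
    have := hp.two_le
    omega
  · intro h4
    have h5 : legendreSym p a = 0 := (legendreSym.eq_zero_iff p a).2
      ((ZMod.intCast_zmod_eq_zero_iff_dvd _ _).2 h4)
    omega

open Classical in
/-- **a good residue class** -/
theorem class_exists (M : Finset ℤ) (hM0 : ∀ a ∈ M, a ≠ 0) (p₀ : ℕ) (hp₀ : p₀.Prime)
    (h24 : p₀ % 24 = 17) (hM : ∀ a ∈ M, ¬ IsSquare ((a : ℤ) : ZMod p₀)) (W : ℕ) (hW : Odd W)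
    (hoW : ∀ a ∈ M, op a ∣ W) :
    ∃ r : ℕ, r % 8 = 1 ∧ 1 < r ∧ Nat.Coprime r W ∧ Nat.Coprime (r - 1) W ∧
      ∀ a ∈ M, J((r : ℤ) | op a) = -1 := by
  have hW0 : W ≠ 0 := by
    rintro rfl
    simp at hW
  haveI : Fact p₀.Prime := ⟨hp₀⟩
  have hJ0 : ∀ a ∈ M, J((p₀ : ℤ) | op a) = -1 := by
    intro a ha
    rw [← jac_eq (hM0 a ha) (by omega)]
    exact jac_prime hp₀ (hM a ha)
  have hcop : ∀ a ∈ M, Nat.Coprime p₀ (op a) := by
    intro a ha
    rw [hp₀.coprime_iff_not_dvd]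
    intro h
    apply hM a ha
    have h1 : (p₀ : ℤ) ∣ a := Int.natCast_dvd.2 (h.trans (op_dvd a))
    rw [(ZMod.intCast_zmod_eq_zero_iff_dvd a p₀).2 h1]
    exact ⟨0, by simp⟩
  set O : ℕ := ∏ a ∈ M, op a with hO
  have hO0 : O ≠ 0 := by
    rw [hO, prod_ne_zero_iff]
    exact fun a ha => (op_pos (hM0 a ha)).ne'
  have hc24 : Nat.Coprime p₀ 24 := by
    rw [hp₀.coprime_iff_not_dvd]
    intro h
    have h1 : p₀ ∣ 24 := h
    have h2 : p₀ ≤ 24 := Nat.le_of_dvd (by norm_num) h1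
    have h3 : p₀ = 17 := by omega
    rw [h3] at h1
    norm_num at h1
  have hcO : Nat.Coprime p₀ (24 * O) := Nat.Coprime.mul_right hc24 (Nat.Coprime.prod_right hcop)
  obtain ⟨p₁, hp₁W, hp₁, hp₁m⟩ := Nat.forall_exists_prime_gt_and_modEq (max W 2) (q := 24 * O)
    (a := p₀) (by positivity) hcO
  have hp₁W' : W < p₁ := lt_of_le_of_lt (le_max_left _ _) hp₁W
  have h24' : p₁ % 24 = 17 := by
    have h : p₁ ≡ p₀ [MOD 24] := hp₁m.of_mul_right O
    unfold Nat.ModEq at h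
    omega
  have hJ1 : ∀ a ∈ M, J((p₁ : ℤ) | op a) = -1 := by
    intro a ha
    rw [← hJ0 a ha]
    apply jac_per
    have h : p₁ ≡ p₀ [MOD O] := hp₁m.of_mul_left 24
    exact h.of_dvd (dvd_prod_of_mem _ ha)
  -- the square factor
  set t : Finset ℕ := insert 2 W.primeFactors with ht
  have htp : ∀ q ∈ t, q.Prime := by
    intro q hq
    rw [ht, mem_insert] at hq
    rcases hq with h | h
    · rw [h]; exact Nat.prime_two
    · exact Nat.prime_of_mem_primeFactors h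
  have hpair : Set.Pairwise (t : Set ℕ) (Function.onFun Nat.Coprime (fun p : ℕ => p)) := by
    intro p hp q hq hpq
    exact (Nat.coprime_primes (htp p hp) (htp q hq)).2 hpq
  obtain ⟨u, hu⟩ := Nat.chineseRemainderOfFinset
    (fun q : ℕ => if q = 2 then 1 else if p₁ % q = 1 then 2 else 1)
    (fun q : ℕ => q) t (fun q hq => (htp q hq).ne_zero) hpair
  have hu2 : u % 2 = 1 := by
    have h := hu 2 (by rw [ht]; exact mem_insert_self _ _)
    simpa [Nat.ModEq] using h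
  have hq2 : ∀ q, q.Prime → q ∣ W → q ≠ 2 := by
    rintro q hq hqW rfl
    have := Nat.odd_iff.1 hW
    omega
  have huq : ∀ q, q.Prime → q ∣ W → ¬ q ∣ u ∧ ¬ p₁ * u ^ 2 ≡ 1 [MOD q] ∧ ¬ q ∣ p₁ := by
    intro q hq hqW
    have hqt : q ∈ t := by
      rw [ht, mem_insert]
      exact Or.inr (Nat.mem_primeFactors.2 ⟨hq, hqW, hW0⟩)
    have hne := hq2 q hq hqW
    have h := hu q hqt
    simp only [hne, if_false] at h
    have hqp : ¬ q ∣ p₁ := by
      intro hd
      have h1 := (Nat.prime_dvd_prime_iff_eq hq hp₁).1 hd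
      have h2 := Nat.le_of_dvd (Nat.pos_of_ne_zero hW0) hqW
      omega
    have hq3 : 3 ≤ q := by
      have := hq.two_le
      omega
    by_cases hc : p₁ % q = 1
    · rw [if_pos hc] at h
      have hq5 : 5 ≤ q := by
        by_contra hlt
        have h3 : q = 3 ∨ q = 4 := by omega
        rcases h3 with h3 | h3
        · rw [h3] at hc
          omega
        · rw [h3] at hq
          norm_num at hq
      refine ⟨?_, ?_, hqp⟩
      · intro hd
        have h1 : (2 : ℕ) ≡ 0 [MOD q] := h.symm.trans ((Nat.modEq_zero_iff_dvd).2 hd)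
        have h2 := Nat.le_of_dvd (by norm_num) ((Nat.modEq_zero_iff_dvd).1 h1)
        omega
      · intro h1
        have h2 : p₁ * u ^ 2 ≡ 1 * 2 ^ 2 [MOD q] := Nat.ModEq.mul (by
          unfold Nat.ModEq
          rw [hc, Nat.mod_eq_of_lt (by omega)]) (h.pow 2)
        have h3 : 1 ≡ 4 [MOD q] := h1.symm.trans h2
        have h4 := (Nat.modEq_iff_dvd' (by norm_num : 1 ≤ 4)).1 h3
        have h5 := Nat.le_of_dvd (by norm_num) h4
        omega
    · rw [if_neg hc] at h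
      refine ⟨?_, ?_, hqp⟩
      · intro hd
        have h1 : (1 : ℕ) ≡ 0 [MOD q] := h.symm.trans ((Nat.modEq_zero_iff_dvd).2 hd)
        have h2 := Nat.le_of_dvd (by norm_num) ((Nat.modEq_zero_iff_dvd).1 h1)
        omega
      · intro h1
        have h2 : p₁ * u ^ 2 ≡ p₁ * 1 ^ 2 [MOD q] := Nat.ModEq.mul_left _ (h.pow 2)
        have h3 : p₁ * 1 ^ 2 ≡ 1 [MOD q] := h2.symm.trans h1
        apply hc
        unfold Nat.ModEq at h3
        rw [one_pow, mul_one] at h3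
        rw [h3, Nat.mod_eq_of_lt (by omega)]
  have hu0 : 0 < u := by omega
  have husq : u ^ 2 % 8 = 1 := by
    have h1 : u % 8 = 1 ∨ u % 8 = 3 ∨ u % 8 = 5 ∨ u % 8 = 7 := by omega
    rcases h1 with h1 | h1 | h1 | h1 <;> simp [Nat.pow_mod, h1]
  refine ⟨p₁ * u ^ 2, ?_, ?_, ?_, ?_, ?_⟩
  · rw [Nat.mul_mod, husq]
    omega
  · have h1 := hp₁.two_le
    have h2 : 1 ≤ u ^ 2 := Nat.one_le_pow _ _ hu0
    nlinarith
  · by_contra h
    obtain ⟨q, hq, h1, h2⟩ := Nat.Prime.not_coprime_iff_dvd.1 h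
    obtain ⟨h3, -, h4⟩ := huq q hq h2
    rcases hq.dvd_mul.1 h1 with h5 | h5
    · exact h4 h5
    · exact h3 (hq.dvd_of_dvd_pow h5)
  · by_contra h
    obtain ⟨q, hq, h1, h2⟩ := Nat.Prime.not_coprime_iff_dvd.1 h
    obtain ⟨-, h3, -⟩ := huq q hq h2
    apply h3
    have h4 : 1 ≤ p₁ * u ^ 2 := Nat.mul_pos hp₁.pos (pow_pos hu0 2)
    exact ((Nat.modEq_iff_dvd' h4).2 h1).symm
  · intro a ha
    push_cast
    rw [jacobiSym.mul_left, jacobiSym.pow_left, hJ1 a ha, jacobiSym.sq_one, mul_one]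
    rw [Int.gcd_natCast_natCast]
    by_contra h
    obtain ⟨q, hq, h1, h2⟩ := Nat.Prime.not_coprime_iff_dvd.1 h
    exact (huq q hq (h2.trans (hoW a ha))).1 h1

end Pool.Agent.J4H36.ST
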