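import Pool.Agent.J4H36.ST.S9

set_option autoImplicit false

/-! # Sets of odd primes -/

namespace Pool.Agent.J4H36.ST

open Finset NumberTheorySymbols
open Pool.Agent.Y855 (MI)

theorem val_prod (q : ℕ) [Fact q.Prime] (P : Finset ℕ) (f : ℕ → ℚ) (hf : ∀ p ∈ P, f p ≠ 0) :
    padicValRat q (∏ p ∈ P, f p) = ∑ p ∈ P, padicValRat q (f p) := by
  classical
  induction P using Finset.induction_on with
  | empty => simp
  | insert a P ha ih =>
    rw [prod_insert ha, sum_insert ha, padicValRat.mul (hf a (mem_insert_self _ _))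
      (prod_ne_zero_iff.2 fun p hp => hf p (mem_insert_of_mem hp)),
      ih fun p hp => hf p (mem_insert_of_mem hp)]

theorem MI_primes (P : Finset ℕ) (hP : ∀ p ∈ P, p.Prime) : MI (P.image (fun p : ℕ => (p : ℤ))) := by
  intro c hc n hn
  rw [mem_image] at hn
  obtain ⟨q, hq, rfl⟩ := hn
  have : Fact q.Prime := ⟨hP q hq⟩
  rw [prod_image (fun a _ b _ h => by exact_mod_cast h)] at hc
  have h1 := congrArg (padicValRat q) hc
  rw [val_prod q P _ (fun p hp => by
    have := (hP p hp).pos
    positivity), padicValRat.one, sum_eq_single q] at h1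
  · have h2 : padicValRat q ((((q : ℕ) : ℤ) : ℚ) ^ c (q : ℤ)) = c (q : ℤ) := by
      rw [padicValRat.zpow, Int.cast_natCast, padicValRat.self (hP q hq).one_lt, mul_one]
    rwa [h2] at h1
  · intro p hp hpq
    have : Fact p.Prime := ⟨hP p hp⟩
    rw [padicValRat.zpow, Int.cast_natCast, padicValRat.of_nat]
    have h3 : padicValNat q p = 0 := by
      apply padicValNat.eq_zero_of_not_dvd
      intro h
      exact hpq ((Nat.prime_dvd_prime_iff_eq (hP q hq) (hP p hp)).1 h).symm
    rw [h3]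
    simp
  · intro h
    exact absurd hq h

theorem crt_exists (P : Finset ℕ) (hP : ∀ p ∈ P, p.Prime ∧ 3 < p) :
    ∃ x : ℕ, x % 24 = 17 ∧ ∀ p ∈ P, J((x : ℤ) | p) = -1 := by
  classical
  induction P using Finset.induction_on with
  | empty => exact ⟨17, by norm_num, by simp⟩
  | insert a P ha ih =>
    obtain ⟨x, hx, hxP⟩ := ih fun p hp => hP p (mem_insert_of_mem hp)
    obtain ⟨hap, ha3⟩ := hP a (mem_insert_self _ _)
    have : Fact a.Prime := ⟨hap⟩
    obtain ⟨r, hr⟩ := FiniteField.exists_nonsquare (F := ZMod a) (by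
      rw [ZMod.ringChar_zmod_n]; omega)
    have hcop : Nat.Coprime (24 * ∏ p ∈ P, p) a := by
      apply Nat.Coprime.mul_left
      · rw [show (24 : ℕ) = 2 ^ 3 * 3 by norm_num]
        apply Nat.Coprime.mul_left
        · exact Nat.Coprime.pow_left _ ((Nat.coprime_primes Nat.prime_two hap).2 (by omega))
        · exact (Nat.coprime_primes Nat.prime_three hap).2 (by omega)
      · apply Nat.Coprime.prod_left
        intro p hp
        apply (Nat.coprime_primes (hP p (mem_insert_of_mem hp)).1 hap).2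
        rintro rfl
        exact ha hp
    obtain ⟨y, hy1, hy2⟩ := Nat.chineseRemainder hcop x r.val
    refine ⟨y, ?_, ?_⟩
    · have h1 : y ≡ x [MOD 24] := hy1.of_dvd (Dvd.intro _ rfl)
      have h2 : y % 24 = x % 24 := h1
      omega
    · intro p hp
      rw [mem_insert] at hp
      rcases hp with rfl | hp
      · rw [jac_per hy2]
        apply ZMod.nonsquare_iff_jacobiSym_eq_neg_one.2
        rwa [Int.cast_natCast, ZMod.natCast_zmod_val]
      · have h1 : y ≡ x [MOD p] := hy1.of_dvd ((dvd_prod_of_mem (fun p => p) hp).mul_left _)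
        rw [jac_per h1]
        exact hxP p hp

theorem q_exists (P : Finset ℕ) (hP : ∀ p ∈ P, p.Prime ∧ p ≠ 2) :
    ∃ q : ℕ, q.Prime ∧ q % 24 = 17 ∧ ∀ p ∈ P, ¬ IsSquare (((p : ℕ) : ℤ) : ZMod q) := by
  classical
  obtain ⟨x, hx, hxP⟩ := crt_exists (P.filter (fun p => 3 < p)) (fun p hp => by
    rw [mem_filter] at hp
    exact ⟨(hP p hp.1).1, hp.2⟩)
  set O : ℕ := ∏ p ∈ P.filter (fun p => 3 < p), p with hO
  have hO0 : O ≠ 0 := by
    rw [hO]
    apply prod_ne_zero_iff.2
    intro p hp
    rw [mem_filter] at hp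
    omega
  have hcop : Nat.Coprime x (24 * O) := by
    apply Nat.Coprime.mul_right
    · rw [Nat.coprime_iff_gcd_eq_one, Nat.gcd_comm, Nat.gcd_rec, hx]
      norm_num
    · rw [hO]
      apply Nat.Coprime.prod_right
      intro p hp
      have h1 := hxP p hp
      rw [mem_filter] at hp
      have hpp := (hP p hp.1).1
      rw [Nat.coprime_comm, hpp.coprime_iff_not_dvd]
      intro h2
      have h3 : J((x : ℤ) | p) = 0 := by
        have : NeZero p := ⟨hpp.ne_zero⟩
        apply jacobiSym.eq_zero_iff_not_coprime.2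
        intro h4
        have h5 : (p : ℕ) ∣ Int.gcd (x : ℤ) (p : ℤ) := by
          rw [Int.gcd_natCast_natCast]
          exact Nat.dvd_gcd h2 dvd_rfl
        rw [h4] at h5
        exact hpp.one_lt.ne' (Nat.dvd_one.1 h5)
      rw [h3] at h1
      norm_num at h1
  obtain ⟨q, hq1, hqp, hqm⟩ := Nat.forall_exists_prime_gt_and_modEq 0 (by omega : 24 * O ≠ 0) hcop
  have hq24 : q % 24 = 17 := by
    have h1 : q ≡ x [MOD 24] := hqm.of_dvd (Dvd.intro _ rfl)
    have h2 : q % 24 = x % 24 := h1
    omega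
  refine ⟨q, hqp, hq24, fun p hp => ?_⟩
  have : Fact q.Prime := ⟨hqp⟩
  have hpp := (hP p hp).1
  apply ZMod.nonsquare_iff_jacobiSym_eq_neg_one.1
  rw [jac_eq (by exact_mod_cast hpp.ne_zero) (by omega)]
  have hop : op (p : ℤ) = p := by
    unfold op
    rw [Int.natAbs_natCast]
    have h : ¬ 2 ∣ p := fun h =>
      (hP p hp).2 ((Nat.prime_dvd_prime_iff_eq Nat.prime_two hpp).1 h).symm
    rw [Nat.factorization_eq_zero_of_not_dvd h, pow_zero, Nat.div_one]
  rw [hop]
  rcases Nat.lt_or_ge 3 p with h3 | h3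
  · have h1 : q ≡ x [MOD p] := hqm.of_dvd
      ((dvd_prod_of_mem (fun p => p) (mem_filter.2 ⟨hp, h3⟩)).mul_left _)
    rw [jac_per h1]
    exact hxP p (mem_filter.2 ⟨hp, h3⟩)
  · have h4 : p = 3 := by
      have := hpp.two_le
      have := (hP p hp).2
      omega
    subst h4
    have h1 : q ≡ 2 [MOD 3] := by
      change q % 3 = 2 % 3
      omega
    rw [jac_per h1]
    norm_num

end Pool.Agent.J4H36.ST
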