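import Mathlib

set_option autoImplicit false

/-! # Forced composite numbers in windows around the values of the forms -/

namespace Pool.Agent.J4H36.ST

open Finset

/-- the forced primes -/
noncomputable def pf (B H : ℕ) (x : ℕ × ℕ) : ℕ := Nat.nth Nat.Prime (B + (x.1 * (H + 1) + x.2))

theorem pf_prime (B H : ℕ) (x : ℕ × ℕ) : (pf B H x).Prime := Nat.prime_nth_prime _

theorem pf_ge (B H : ℕ) (x : ℕ × ℕ) : B ≤ pf B H x := by
  have h := (Nat.nth_strictMono Nat.infinite_setOfPred_prime).le_apply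
    (x := B + (x.1 * (H + 1) + x.2))
  exact (Nat.le_add_right _ _).trans h

theorem pf_inj (B H : ℕ) {x y : ℕ × ℕ} (hx : x.2 ≤ H) (hy : y.2 ≤ H) (h : pf B H x = pf B H y) :
    x = y := by
  have h1 := (Nat.nth_strictMono Nat.infinite_setOfPred_prime).injective h
  have h2 : x.1 * (H + 1) + x.2 = y.1 * (H + 1) + y.2 := by omega
  have h3 : x.1 = y.1 := by
    have h4 := congrArg (fun z => z / (H + 1)) h2
    rw [mul_comm x.1, mul_comm y.1, Nat.mul_add_div (by omega), Nat.mul_add_div (by omega),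
      Nat.div_eq_of_lt (by omega : x.2 < H + 1), Nat.div_eq_of_lt (by omega : y.2 < H + 1)] at h4
    omega
  have h5 : x.2 = y.2 := by
    rw [h3] at h2
    omega
  exact Prod.ext h3 h5

/-- a residue class modulo a prime -/
theorem solve (π : ℕ) (hπ : π.Prime) (c ρ b : ℕ) (W : ℕ) (hc : ¬ π ∣ c * (2 * W)) :
    ∃ ν : ℕ, π ∣ c * (2 * W * ν + ρ) + b := by
  have : Fact π.Prime := ⟨hπ⟩
  have h0 : ((c * (2 * W) : ℕ) : ZMod π) ≠ 0 := by
    intro h
    exact hc ((ZMod.natCast_eq_zero_iff _ _).1 h)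
  refine ⟨((-((b : ZMod π) + c * ρ)) * ((c * (2 * W) : ℕ) : ZMod π)⁻¹).val, ?_⟩
  rw [← ZMod.natCast_eq_zero_iff]
  push_cast
  rw [ZMod.natCast_zmod_val]
  have h1 : (c : ZMod π) * (2 * W) * (((c : ZMod π) * (2 * W))⁻¹) = 1 := by
    apply mul_inv_cancel₀
    push_cast at h0
    exact h0
  linear_combination (-((b : ZMod π) + c * ρ)) * h1

open Classical in
/-- **the forced composite numbers** -/
theorem forced (W ρ E K H : ℕ) (hW : 0 < W) :
    ∃ Q ν : ℕ, 1 ≤ Q ∧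
      (∀ j b : ℕ, 1 ≤ j → j ≤ 4 → b ≤ H → b % 2 = 1 →
        (∀ h < K, b ≠ 2 ^ (j * E) * (2 * W * h) + 1) →
        ∃ π : ℕ, π.Prime ∧ π ∣ Q ∧ π ∣ 2 ^ (j * E) * (2 * W * ν + ρ) + b) ∧
      (∀ π : ℕ, π.Prime → π ∣ Q → ¬ π ∣ 2 * W ∧ ∀ h < K, ¬ π ∣ 2 * W * (ν + h) + ρ ∧
        ∀ j : ℕ, 1 ≤ j → j ≤ 4 → ¬ π ∣ 2 ^ (j * E) * (2 * W * (ν + h) + ρ) + 1) := by
  have gen : ∀ X Y Z : ℕ, ∃ B : ℕ, X < B ∧ Y < B ∧ Z < B := fun X Y Z =>
    ⟨X + Y + Z + 1, by omega, by omega, by omega⟩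
  obtain ⟨B, hB1, hB2, hB3⟩ := gen (2 ^ (4 * E) * (2 ^ (4 * E) * (2 * W * K)) + 2 ^ (4 * E))
    (2 ^ (4 * E) * H) (2 * W + 2)
  set I : Finset (ℕ × ℕ) := ((Icc 1 4) ×ˢ (range (H + 1))).filter (fun x =>
    x.2 % 2 = 1 ∧ ∀ h < K, x.2 ≠ 2 ^ (x.1 * E) * (2 * W * h) + 1) with hI
  have hpow : ∀ j, j ≤ 4 → 2 ^ (j * E) ≤ 2 ^ (4 * E) := fun j hj =>
    Nat.pow_le_pow_right (by norm_num) (Nat.mul_le_mul_right _ hj)
  have hπB : ∀ x, B ≤ pf B H x := pf_ge B H
  have hπ2 : ∀ x, ¬ pf B H x ∣ 2 * W := by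
    intro x h
    have h1 := Nat.le_of_dvd (by omega) h
    have h2 := hπB x
    omega
  have hnd : ∀ x j, ¬ pf B H x ∣ 2 ^ (j * E) * (2 * W) := by
    intro x j h
    rcases (pf_prime B H x).dvd_mul.1 h with h1 | h1
    · have h2 := (pf_prime B H x).dvd_of_dvd_pow h1
      exact hπ2 x (h2.mul_right W)
    · exact hπ2 x h1
  have hsol : ∀ x : ℕ × ℕ, ∃ ν : ℕ, pf B H x ∣ 2 ^ (x.1 * E) * (2 * W * ν + ρ) + x.2 :=
    fun x => solve _ (pf_prime B H x) _ ρ _ W (hnd x x.1)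
  choose νf hνf using hsol
  have hpair : Set.Pairwise (I : Set (ℕ × ℕ)) (Function.onFun Nat.Coprime (fun x => pf B H x)) := by
    intro x hx y hy hxy
    have hx' : x ∈ I := hx
    have hy' : y ∈ I := hy
    rw [hI, mem_filter, mem_product, mem_range] at hx' hy'
    refine (Nat.coprime_primes (pf_prime B H x) (pf_prime B H y)).2 fun h => hxy ?_
    exact pf_inj B H (by have := hx'.1.2; omega) (by have := hy'.1.2; omega) h
  obtain ⟨ν, hν⟩ := Nat.chineseRemainderOfFinset νf (fun x => pf B H x) I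
    (fun x _ => (pf_prime B H x).ne_zero) hpair
  have hkey : ∀ x ∈ I, pf B H x ∣ 2 ^ (x.1 * E) * (2 * W * ν + ρ) + x.2 := by
    intro x hx
    have h1 : 2 ^ (x.1 * E) * (2 * W * ν + ρ) + x.2 ≡ 2 ^ (x.1 * E) * (2 * W * νf x + ρ) + x.2
        [MOD pf B H x] :=
      (((hν x hx).mul_left (2 * W)).add_right ρ).mul_left _ |>.add_right _
    exact (Nat.modEq_zero_iff_dvd).1 (h1.trans ((Nat.modEq_zero_iff_dvd).2 (hνf x)))
  refine ⟨∏ x ∈ I, pf B H x, ν, ?_, ?_, ?_⟩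
  · exact Nat.one_le_iff_ne_zero.2 (prod_ne_zero_iff.2 fun x _ => (pf_prime B H x).ne_zero)
  · intro j b hj1 hj4 hb hb2 hbh
    have hx : (j, b) ∈ I := by
      rw [hI, mem_filter, mem_product, mem_Icc, mem_range]
      exact ⟨⟨⟨hj1, hj4⟩, by simpa using Nat.lt_succ_of_le hb⟩, hb2, hbh⟩
    exact ⟨pf B H (j, b), pf_prime _ _ _, dvd_prod_of_mem _ hx, hkey _ hx⟩
  · intro π hπ hπQ
    obtain ⟨x, hx, hxπ⟩ := (Prime.dvd_finsetProd_iff hπ.prime _).1 hπQ
    have hπx : π = pf B H x := (Nat.prime_dvd_prime_iff_eq hπ (pf_prime B H x)).1 hxπ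
    rw [hπx]
    have hk := hkey x hx
    have hx' := hx
    rw [hI, mem_filter, mem_product, mem_Icc, mem_range] at hx'
    obtain ⟨⟨⟨hj1, hj4⟩, hbH⟩, hb2, hbh⟩ := hx'
    obtain ⟨j, b⟩ := x
    simp only at hj1 hj4 hbH hb2 hbh hk
    set P := pf B H (j, b) with hP
    have hPB : B ≤ P := hπB _
    -- the key linear combination
    have hZ : ∀ (j' h d : ℕ), j' ≤ 4 → h < K → d ≤ 1 →
        P ∣ 2 ^ (j' * E) * (2 * W * (ν + h) + ρ) + d →
        (2 ^ (j' * E) * (2 ^ (j * E) * (2 * W * h)) + d * 2 ^ (j * E) : ℕ) = 2 ^ (j' * E) * b := by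
      intro j' h d hj' hh hd hdiv
      have e1 : (P : ℤ) ∣ 2 ^ (j' * E) * (2 * W * (ν + h) + ρ) + d := by exact_mod_cast hdiv
      have e2 : (P : ℤ) ∣ 2 ^ (j * E) * (2 * W * ν + ρ) + b := by exact_mod_cast hk
      have e3 : (P : ℤ) ∣ (2 ^ (j' * E) * (2 ^ (j * E) * (2 * W * h)) + d * 2 ^ (j * E)) -
          2 ^ (j' * E) * b := by
        have h1 := dvd_sub (Dvd.dvd.mul_left e1 (2 ^ (j * E))) (Dvd.dvd.mul_left e2 (2 ^ (j' * E)))
        have h2 : (2 : ℤ) ^ (j * E) * (2 ^ (j' * E) * (2 * W * (ν + h) + ρ) + d) -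
            2 ^ (j' * E) * (2 ^ (j * E) * (2 * W * ν + ρ) + b) =
            (2 ^ (j' * E) * (2 ^ (j * E) * (2 * W * h)) + d * 2 ^ (j * E)) - 2 ^ (j' * E) * b := by
          ring
        rwa [h2] at h1
      have p1 := hpow j hj4
      have p2 := hpow j' hj'
      have u1 : 2 ^ (j' * E) * (2 ^ (j * E) * (2 * W * h)) + d * 2 ^ (j * E) < P := by
        have a1 : 2 ^ (j * E) * (2 * W * h) ≤ 2 ^ (4 * E) * (2 * W * K) :=
          Nat.mul_le_mul p1 (Nat.mul_le_mul_left _ hh.le)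
        have a2 : 2 ^ (j' * E) * (2 ^ (j * E) * (2 * W * h)) ≤
            2 ^ (4 * E) * (2 ^ (4 * E) * (2 * W * K)) := Nat.mul_le_mul p2 a1
        have a3 : d * 2 ^ (j * E) ≤ 2 ^ (4 * E) := by
          calc d * 2 ^ (j * E) ≤ 1 * 2 ^ (4 * E) := Nat.mul_le_mul hd p1
            _ = _ := one_mul _
        exact lt_of_le_of_lt (Nat.add_le_add a2 a3) (hB1.trans_le hPB)
      have u2 : 2 ^ (j' * E) * b < P := by
        have a1 : 2 ^ (j' * E) * b ≤ 2 ^ (4 * E) * H := Nat.mul_le_mul p2 (by omega)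
        exact lt_of_le_of_lt a1 (hB2.trans_le hPB)
      have e4 : ((2 ^ (j' * E) * (2 ^ (j * E) * (2 * W * h)) + d * 2 ^ (j * E) : ℕ) : ℤ) -
          ((2 ^ (j' * E) * b : ℕ) : ℤ) = 0 := by
        apply Int.eq_zero_of_abs_lt_dvd (m := (P : ℤ))
        · push_cast
          exact e3
        · rw [abs_lt]
          constructor <;> omega
      omega
    refine ⟨hπ2 _, fun h hh => ⟨?_, ?_⟩⟩
    · intro hdiv
      have h1 := hZ 0 h 0 (by norm_num) hh (by norm_num) (by simpa using hdiv)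
      simp only [zero_mul, pow_zero, one_mul, add_zero] at h1
      have h2 : 2 ^ (j * E) * (2 * W * h) = 2 * (2 ^ (j * E) * (W * h)) := by ring
      omega
    · intro j' hj'1 hj'4 hdiv
      have h1 := hZ j' h 1 hj'4 hh le_rfl hdiv
      rw [one_mul] at h1
      -- `b > 2^(jE) 2 W h` and the difference is odd and divides a power of two
      have hpos : 0 < 2 ^ (j' * E) := by positivity
      have hpos2 : 0 < 2 ^ (j * E) := by positivity
      have h2 : 2 ^ (j * E) * (2 * W * h) < b := by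
        by_contra hcon
        push Not at hcon
        have := Nat.mul_le_mul_left (2 ^ (j' * E)) hcon
        omega
      obtain ⟨c, hc⟩ : ∃ c, b = 2 ^ (j * E) * (2 * W * h) + c := ⟨b - 2 ^ (j * E) * (2 * W * h), by omega⟩
      have h3 : 2 ^ (j' * E) * c = 2 ^ (j * E) := by
        rw [hc] at h1
        have : 2 ^ (j' * E) * (2 ^ (j * E) * (2 * W * h) + c) =
          2 ^ (j' * E) * (2 ^ (j * E) * (2 * W * h)) + 2 ^ (j' * E) * c := by ring
        omega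
      have hcodd : c % 2 = 1 := by
        have h4 : 2 ^ (j * E) * (2 * W * h) = 2 * (2 ^ (j * E) * (W * h)) := by ring
        omega
      have hc1 : c ∣ 2 ^ (j * E) := Dvd.intro_left _ h3
      obtain ⟨i, -, hi⟩ := (Nat.dvd_prime_pow Nat.prime_two).1 hc1
      rcases Nat.eq_zero_or_pos i with h0 | h0
      · rw [h0, pow_zero] at hi
        exact hbh h hh (by omega)
      · obtain ⟨i', rfl⟩ := Nat.exists_eq_succ_of_ne_zero h0.ne'
        rw [pow_succ] at hi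
        omega

end Pool.Agent.J4H36.ST
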