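import Pool.Agent.J4H36.ST.S1
import Pool.Agent.J4H36.ST.S2

set_option autoImplicit false

/-! # The family of linear forms -/

namespace Pool.Agent.J4H36.ST

open Finset NumberTheorySymbols

/-- the configuration: all data of the family -/
structure Cfg (M : Finset ℤ) (W ρ r E K H Q ν : ℕ) : Prop where
  Wodd : Odd W
  M0 : ∀ a ∈ M, a ≠ 0
  opW : ∀ a ∈ M, op a ∣ W
  r8 : r % 8 = 1
  r1 : 1 < r
  rW : Nat.Coprime r W
  rW1 : Nat.Coprime (r - 1) W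
  jac : ∀ a ∈ M, J((r : ℤ) | op a) = -1
  ρodd : ρ % 2 = 1
  ρm : ρ ≡ r - 1 [MOD W]
  E3 : 3 ≤ E
  Em : 2 ^ E ≡ 1 [MOD W]
  Q1 : 1 ≤ Q
  f1 : ∀ j b : ℕ, 1 ≤ j → j ≤ 4 → b ≤ H → b % 2 = 1 →
        (∀ h < K, b ≠ 2 ^ (j * E) * (2 * W * h) + 1) →
        ∃ π : ℕ, π.Prime ∧ π ∣ Q ∧ π ∣ 2 ^ (j * E) * (2 * W * ν + ρ) + b
  f2 : ∀ π : ℕ, π.Prime → π ∣ Q → ¬ π ∣ 2 * W ∧ ∀ h < K, ¬ π ∣ 2 * W * (ν + h) + ρ ∧
        ∀ j : ℕ, 1 ≤ j → j ≤ 4 → ¬ π ∣ 2 ^ (j * E) * (2 * W * (ν + h) + ρ) + 1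
  HH : H = 2 ^ (4 * E) * (2 * W * K) + 1

/-- the modulus: the odd primes up to `y` and the odd parts of the elements of `M` divide it -/
theorem modulus_exists (M : Finset ℤ) (hM0 : ∀ a ∈ M, a ≠ 0) (y : ℕ) :
    ∃ W : ℕ, Odd W ∧ (∀ a ∈ M, op a ∣ W) ∧ ∀ p : ℕ, p.Prime → p ≤ y → p ∣ 2 * W := by
  classical
  set W₁ : ℕ := ∏ p ∈ (range (y + 1)).filter (fun p => p.Prime ∧ p ≠ 2), p with hW₁
  set W₂ : ℕ := ∏ a ∈ M, op a with hW₂
  have o1 : Odd W₁ := by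
    rw [hW₁]
    apply Finset.prod_induction _ Odd (fun a b => Odd.mul) odd_one
    intro p hp
    rw [mem_filter] at hp
    exact hp.2.1.odd_of_ne_two hp.2.2
  have o2 : Odd W₂ := by
    rw [hW₂]
    exact Finset.prod_induction _ Odd (fun a b => Odd.mul) odd_one (fun a ha => op_odd (hM0 a ha))
  refine ⟨W₁ * W₂, o1.mul o2, fun a ha => (dvd_prod_of_mem _ ha).mul_left _, ?_⟩
  intro p hp hpy
  rcases eq_or_ne p 2 with h | h
  · rw [h]; exact dvd_mul_right _ _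
  · have h1 : p ∣ W₁ := dvd_prod_of_mem (fun p => p) (by
      rw [mem_filter, mem_range]
      exact ⟨by omega, hp, h⟩)
    exact (h1.mul_right _).mul_left _

theorem cfg_exists (M : Finset ℤ) (hM0 : ∀ a ∈ M, a ≠ 0) (p₀ : ℕ) (hp₀ : p₀.Prime)
    (h24 : p₀ % 24 = 17) (hM : ∀ a ∈ M, ¬ IsSquare ((a : ℤ) : ZMod p₀)) (W K : ℕ) (hWo : Odd W)
    (hoW : ∀ a ∈ M, op a ∣ W) :
    ∃ ρ r Q ν : ℕ, Cfg M W ρ r (3 * W.totient) K (2 ^ (4 * (3 * W.totient)) * (2 * W * K) + 1) Q ν := by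
  classical
  have hW0 : 0 < W := hWo.pos
  obtain ⟨r, r8, r1, rW, rW1, hjac⟩ := class_exists M hM0 p₀ hp₀ h24 hM W hWo hoW
  set ρ : ℕ := r - 1 + W with hρ
  set E : ℕ := 3 * W.totient with hE
  have hφ : 0 < W.totient := Nat.totient_pos.2 hW0
  obtain ⟨Q, ν, hQ, f1, f2⟩ := forced W ρ E K (2 ^ (4 * E) * (2 * W * K) + 1) hW0
  refine ⟨ρ, r, Q, ν, ⟨hWo, hM0, hoW, r8, r1, rW, rW1, hjac, ?_, ?_, ?_, ?_, hQ, f1, f2, rfl⟩⟩
  · have := Nat.odd_iff.1 hWo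
    omega
  · rw [hρ]
    unfold Nat.ModEq
    rw [Nat.add_mod_right]
  · omega
  · have h2 : Nat.Coprime 2 W := (Nat.coprime_two_left).2 hWo
    have h3 := (Nat.ModEq.pow_totient h2).pow 3
    rw [one_pow, ← pow_mul] at h3
    rw [hE, mul_comm]
    exact h3

section
variable {M : Finset ℤ} {W ρ r E K H Q ν : ℕ}

/-- the correction of the level -/
def dd (j : ℕ) : ℕ := if j = 0 then 0 else 1

theorem Cfg.E2 (c : Cfg M W ρ r E K H Q ν) (j : ℕ) : 2 ^ (j * E) ≡ 1 [MOD W] := by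
  have h := c.Em.pow j
  rw [one_pow, ← pow_mul] at h
  rw [mul_comm]
  exact h

theorem Cfg.W0 (c : Cfg M W ρ r E K H Q ν) : 0 < W := c.Wodd.pos

/-- the values are odd -/
theorem Cfg.val_odd (c : Cfg M W ρ r E K H Q ν) (j z : ℕ) :
    (2 ^ (j * E) * (2 * W * z + ρ) + dd j) % 2 = 1 := by
  have h1 := c.ρodd
  have h3 := c.E3
  unfold dd
  split_ifs with h
  · rw [h, zero_mul, pow_zero, one_mul, add_zero]
    have : 2 * W * z = 2 * (W * z) := by ring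
    omega
  · have h4 : 1 ≤ j * E := Nat.mul_pos (Nat.pos_of_ne_zero h) (by omega)
    obtain ⟨i, hi⟩ : ∃ i, j * E = i + 1 := ⟨j * E - 1, by omega⟩
    rw [hi, pow_succ]
    have : 2 ^ i * 2 * (2 * W * z + ρ) = 2 * (2 ^ i * (2 * W * z + ρ)) := by ring
    omega

/-- the values modulo `W` -/
theorem Cfg.val_mod (c : Cfg M W ρ r E K H Q ν) (j z : ℕ) :
    2 ^ (j * E) * (2 * W * z + ρ) + dd j ≡ r - 1 + dd j [MOD W] := by
  have h1 : 2 * W * z + ρ ≡ 0 + (r - 1) [MOD W] := by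
    apply Nat.ModEq.add _ c.ρm
    rw [Nat.modEq_zero_iff_dvd]
    exact ⟨2 * z, by ring⟩
  have h2 := (c.E2 j).mul h1
  rw [one_mul, zero_add] at h2
  exact h2.add_right _

theorem Cfg.val_cop (c : Cfg M W ρ r E K H Q ν) (j z : ℕ) :
    Nat.Coprime (2 ^ (j * E) * (2 * W * z + ρ) + dd j) W := by
  have h := c.val_mod j z
  have h1 : Nat.Coprime (r - 1 + dd j) W := by
    unfold dd
    split_ifs
    · simpa using c.rW1
    · have h2 : r - 1 + 1 = r := by have := c.r1; omega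
      rw [h2]
      exact c.rW
  unfold Nat.Coprime at h1 ⊢
  rw [h.gcd_eq, h1]

theorem Cfg.cop (c : Cfg M W ρ r E K H Q ν) (j h : ℕ) (hj : j ≤ 4) (hh : h < K) :
    Nat.Coprime (2 ^ (j * E) * (2 * W * Q)) (2 ^ (j * E) * (2 * W * (ν + h) + ρ) + dd j) := by
  by_contra hcon
  obtain ⟨q, hq, h1, h2⟩ := Nat.Prime.not_coprime_iff_dvd.1 hcon
  have hodd := c.val_odd j (ν + h)
  have hq2 : ¬ q ∣ 2 := by
    intro h3
    have h4 := (Nat.prime_dvd_prime_iff_eq hq Nat.prime_two).1 h3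
    rw [h4] at h2
    omega
  have hqW : ¬ q ∣ W := fun h3 => by
    have h4 := c.val_cop j (ν + h)
    have h5 := Nat.dvd_gcd h2 h3
    rw [h4] at h5
    exact hq.one_lt.ne' (Nat.dvd_one.1 h5)
  rcases hq.dvd_mul.1 h1 with h3 | h3
  · exact hq2 (hq.dvd_of_dvd_pow h3)
  rcases hq.dvd_mul.1 h3 with h4 | h4
  · rcases hq.dvd_mul.1 h4 with h5 | h5
    · exact hq2 h5
    · exact hqW h5
  · obtain ⟨-, h5⟩ := c.f2 q hq h4
    obtain ⟨h6, h7⟩ := h5 h hh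
    rcases Nat.eq_zero_or_pos j with h0 | h0
    · apply h6
      rw [h0] at h2
      simpa [dd] using h2
    · apply h7 j h0 hj
      have : dd j = 1 := by unfold dd; rw [if_neg h0.ne']
      rwa [this] at h2

/-- the window: a prime in the window at the level `j` is a value of a form of the level `j` -/
theorem Cfg.window (c : Cfg M W ρ r E K H Q ν) (j b n : ℕ) (hj1 : 1 ≤ j) (hj : j ≤ 4)
    (hn : 1 ≤ n) (hb0 : 1 ≤ b) (hb : b ≤ H)
    (hp : (2 ^ (j * E) * (2 * W * (Q * n + ν) + ρ) + b).Prime) :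
    ∃ h < K, b = 2 ^ (j * E) * (2 * W * h) + 1 := by
  by_contra hcon
  push Not at hcon
  set v := 2 ^ (j * E) * (2 * W * (Q * n + ν) + ρ) + b with hv
  have hW := c.W0
  have hQ := c.Q1
  have hE : 1 ≤ j * E := Nat.mul_pos hj1 (by have := c.E3; omega)
  obtain ⟨i, hi⟩ : ∃ i, j * E = i + 1 := ⟨j * E - 1, by omega⟩
  have hρ := c.ρodd
  rcases Nat.even_or_odd b with hbe | hbo
  · have h2 : 2 ∣ v := by
      rw [hv, hi, pow_succ]
      obtain ⟨t, ht⟩ := hbe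
      exact ⟨2 ^ i * (2 * W * (Q * n + ν) + ρ) + t, by rw [ht]; ring⟩
    have h3 := (Nat.prime_dvd_prime_iff_eq Nat.prime_two hp).1 h2
    have h4 : 1 ≤ 2 ^ (j * E) * (2 * W * (Q * n + ν) + ρ) := Nat.mul_pos (by positivity) (by omega)
    obtain ⟨t, ht⟩ := hbe
    have : b = 2 := by omega
    have h5 : 2 ≤ 2 ^ (j * E) * (2 * W * (Q * n + ν) + ρ) := by
      calc 2 = 2 ^ 1 * 1 := by norm_num
        _ ≤ _ := Nat.mul_le_mul (Nat.pow_le_pow_right (by norm_num) hE) (by omega)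
    omega
  · obtain ⟨π, hπ, hπQ, hπd⟩ := c.f1 j b hj1 hj hb (Nat.odd_iff.1 hbo) hcon
    have h1 : π ∣ v := by
      have e : v = 2 ^ (j * E) * (2 * W * (Q * n)) + (2 ^ (j * E) * (2 * W * ν + ρ) + b) := by
        rw [hv]; ring
      rw [e]
      exact dvd_add (((hπQ.mul_right n).mul_left _).mul_left _) hπd
    have h2 := (Nat.prime_dvd_prime_iff_eq hπ hp).1 h1
    have h3 : π ≤ Q := Nat.le_of_dvd hQ hπQ
    have h4 : Q ≤ 2 ^ (j * E) * (2 * W * (Q * n + ν) + ρ) := by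
      calc Q = 1 * (1 * Q) := by ring
        _ ≤ 2 ^ (j * E) * (2 * W * (Q * n + ν) + ρ) := by
          apply Nat.mul_le_mul Nat.one_le_two_pow
          have h5 : 1 * Q ≤ 2 * W * (Q * n) := Nat.mul_le_mul (by omega) (Nat.le_mul_of_pos_right _ hn)
          have h6 : 2 * W * (Q * n + ν) = 2 * W * (Q * n) + 2 * W * ν := by ring
          omega
    omega

/-- the form values -/
theorem Cfg.jacp (c : Cfg M W ρ r E K H Q ν) (j z : ℕ) (hj1 : 1 ≤ j) (a : ℤ) (ha : a ∈ M) :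
    (2 ^ (j * E) * (2 * W * z + ρ) + 1) % 8 = 1 ∧
      J(a | 2 ^ (j * E) * (2 * W * z + ρ) + 1) = -1 := by
  have h1 : (2 ^ (j * E) * (2 * W * z + ρ) + 1) % 8 = 1 := by
    have h2 : 3 ≤ j * E := by
      have := c.E3
      nlinarith
    obtain ⟨i, hi⟩ : ∃ i, j * E = 3 + i := ⟨j * E - 3, by omega⟩
    rw [hi, pow_add]
    have : 2 ^ 3 * 2 ^ i * (2 * W * z + ρ) = 8 * (2 ^ i * (2 * W * z + ρ)) := by ring
    omega
  refine ⟨h1, ?_⟩
  rw [jac_eq (c.M0 a ha) h1, ← c.jac a ha]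
  apply jac_per
  have h2 := c.val_mod j z
  have h3 : dd j = 1 := by unfold dd; rw [if_neg (by omega)]
  rw [h3] at h2
  have h4 : r - 1 + 1 = r := by have := c.r1; omega
  rw [h4] at h2
  exact h2.of_dvd (c.opW a ha)

end

end Pool.Agent.J4H36.ST
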