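import Pool.Agent.J4H36.ST.S3
import Pool.Agent.Y855.A7

set_option autoImplicit false

/-! # The exceptional elements at one point -/

namespace Pool.Agent.J4H36.ST

open Finset NumberTheorySymbols
open Pool.Agent.Y855 (Exc MI)

open Classical in
/-- the elements that are not primitive roots modulo the prime `p` -/
theorem bad_card (M : Finset ℤ) (X s p u R : ℕ) (hp : p.Prime) (hpX : p ≤ X) (hp8 : p % 8 = 1)
    (hJ : ∀ a ∈ M, J(a | p) = -1) (hE : p ∉ Exc X s M) (hR : p - 1 = 2 ^ u * R)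
    (hrough : ∀ l : ℕ, l.Prime → l ∣ R → X ^ 2 ≤ l ^ s) :
    (M.filter (fun a : ℤ => orderOf (a : ZMod p) ≠ p - 1)).card ≤ s * s := by
  have : Fact p.Prime := ⟨hp⟩
  have hp2 := hp.two_le
  have hX2 : 2 ≤ X := hp2.trans hpX
  have hR0 : R ≠ 0 := by
    rintro rfl
    rw [mul_zero] at hR
    omega
  have hRX : R ≤ X := by
    have h1 : R ≤ 2 ^ u * R := Nat.le_mul_of_pos_left _ (by positivity)
    omega
  -- the number of the large prime factors
  have hω : R.primeFactors.card ≤ s := by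
    have h1 : (X ^ 2) ^ R.primeFactors.card ≤ X ^ s := by
      calc (X ^ 2) ^ R.primeFactors.card = ∏ _l ∈ R.primeFactors, X ^ 2 := by rw [prod_const]
        _ ≤ ∏ l ∈ R.primeFactors, l ^ s := by
            apply prod_le_prod (fun _ _ => Nat.zero_le _)
            intro l hl
            exact hrough l (Nat.prime_of_mem_primeFactors hl) (Nat.dvd_of_mem_primeFactors hl)
        _ = (∏ l ∈ R.primeFactors, l) ^ s := by rw [prod_pow]
        _ ≤ R ^ s := Nat.pow_le_pow_left (Nat.le_of_dvd (Nat.pos_of_ne_zero hR0)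
            (Nat.prod_primeFactors_dvd R)) s
        _ ≤ X ^ s := Nat.pow_le_pow_left hRX s
    rw [← pow_mul] at h1
    have h2 := (Nat.pow_le_pow_iff_right (by omega : 1 < X)).1 h1
    omega
  have hsub : M.filter (fun a : ℤ => orderOf (a : ZMod p) ≠ p - 1) ⊆
      R.primeFactors.biUnion (fun l => M.filter (fun a : ℤ => (a : ZMod p) ^ ((p - 1) / l) = 1)) := by
    intro a ha
    rw [mem_filter] at ha
    obtain ⟨haM, hord⟩ := ha
    obtain ⟨hne, hnd⟩ := not_one_of_jac hp hp8 (hJ a haM)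
    have ha0 : (a : ZMod p) ≠ 0 := fun h => hnd ((ZMod.intCast_zmod_eq_zero_iff_dvd _ _).1 h)
    have hpow : (a : ZMod p) ^ (p - 1) = 1 := ZMod.pow_card_sub_one_eq_one ha0
    have hex : ∃ l : ℕ, l.Prime ∧ l ∣ p - 1 ∧ (a : ZMod p) ^ ((p - 1) / l) = 1 := by
      by_contra hcon
      push Not at hcon
      exact hord (orderOf_eq_of_pow_and_pow_div_prime (by omega) hpow hcon)
    obtain ⟨l, hl, hlp, hl1⟩ := hex
    have hl2 : l ≠ 2 := by
      rintro rfl
      exact hne hl1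
    have hlR : l ∣ R := by
      rw [hR] at hlp
      rcases hl.dvd_mul.1 hlp with h | h
      · exact absurd ((Nat.prime_dvd_prime_iff_eq hl Nat.prime_two).1 (hl.dvd_of_dvd_pow h)) hl2
      · exact h
    rw [mem_biUnion]
    exact ⟨l, Nat.mem_primeFactors.2 ⟨hl, hlR, hR0⟩, mem_filter.2 ⟨haM, hl1⟩⟩
  refine (card_le_card hsub).trans (card_biUnion_le.trans ?_)
  have hl : ∀ l ∈ R.primeFactors,
      (M.filter (fun a : ℤ => (a : ZMod p) ^ ((p - 1) / l) = 1)).card ≤ s := by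
    intro l hl
    by_contra hcon
    push Not at hcon
    apply hE
    unfold Exc
    rw [mem_filter, mem_Icc]
    refine ⟨⟨by omega, hpX⟩, hp, ?_, l, Nat.prime_of_mem_primeFactors hl, ?_, ?_, hcon.le⟩
    · intro n hn
      exact (not_one_of_jac hp hp8 (hJ n hn)).2
    · rw [hR]
      exact (Nat.dvd_of_mem_primeFactors hl).mul_left _
    · exact hrough l (Nat.prime_of_mem_primeFactors hl) (Nat.dvd_of_mem_primeFactors hl)
  calc ∑ l ∈ R.primeFactors, (M.filter (fun a : ℤ => (a : ZMod p) ^ ((p - 1) / l) = 1)).card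
      ≤ ∑ _l ∈ R.primeFactors, s := sum_le_sum hl
    _ = R.primeFactors.card * s := by rw [sum_const, smul_eq_mul]
    _ ≤ s * s := Nat.mul_le_mul_right _ hω

open Classical in
/-- the elements of `M` that are not primitive roots modulo all the primes of `(m, m + H]` -/
noncomputable def Bad (M : Finset ℤ) (H m : ℕ) : Finset ℤ :=
  M.filter (fun a : ℤ => ∃ p ∈ Ioc m (m + H), p.Prime ∧ orderOf (a : ZMod p) ≠ p - 1)

section
variable {M : Finset ℤ} {W ρ r E K H Q ν : ℕ}

/-- the left end of the window -/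
def mm (W ρ E Q ν j n : ℕ) : ℕ := 2 ^ (j * E) * (2 * W * (Q * n + ν) + ρ)

theorem Cfg.bad (c : Cfg M W ρ r E K H Q ν) (j n X s : ℕ) (hj1 : 1 ≤ j) (hj : j ≤ 4) (hn : 1 ≤ n)
    (hX : ∀ h < K, 2 ^ (j * E) * (2 * W * (Q * n + ν + h) + ρ) + 1 ≤ X)
    (hExc : ∀ h < K, 2 ^ (j * E) * (2 * W * (Q * n + ν + h) + ρ) + 1 ∉ Exc X s M)
    (hrough : ∀ h < K, ∀ l : ℕ, l.Prime → l ∣ 2 * W * (Q * n + ν + h) + ρ → X ^ 2 ≤ l ^ s) :
    (Bad M H (mm W ρ E Q ν j n)).card ≤ K * (s * s) := by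
  classical
  set P : ℕ → ℕ := fun h => 2 ^ (j * E) * (2 * W * (Q * n + ν + h) + ρ) + 1 with hP
  have hsub : Bad M H (mm W ρ E Q ν j n) ⊆ ((range K).filter (fun h => (P h).Prime)).biUnion
      (fun h => M.filter (fun a : ℤ => orderOf (a : ZMod (P h)) ≠ P h - 1)) := by
    intro a ha
    unfold Bad at ha
    rw [mem_filter] at ha
    obtain ⟨haM, p, hpI, hpp, hord⟩ := ha
    rw [mem_Ioc] at hpI
    obtain ⟨b, hb⟩ : ∃ b, p = mm W ρ E Q ν j n + b := ⟨p - mm W ρ E Q ν j n, by omega⟩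
    have hpp' := hpp
    rw [hb] at hpp'
    unfold mm at hpp' hb hpI
    obtain ⟨h, hh, hbh⟩ := c.window j b n hj1 hj hn (by omega) (by omega) hpp'
    have hpP : p = P h := by
      rw [hb, hbh, hP]
      ring
    rw [mem_biUnion]
    refine ⟨h, mem_filter.2 ⟨mem_range.2 hh, by rw [← hpP]; exact hpp⟩, mem_filter.2 ⟨haM, ?_⟩⟩
    rw [← hpP]
    exact hord
  refine (card_le_card hsub).trans (card_biUnion_le.trans ?_)
  have h1 : ∀ h ∈ (range K).filter (fun h => (P h).Prime),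
      (M.filter (fun a : ℤ => orderOf (a : ZMod (P h)) ≠ P h - 1)).card ≤ s * s := by
    intro h hh
    rw [mem_filter, mem_range] at hh
    obtain ⟨hhK, hpp⟩ := hh
    by_cases hM : M = ∅
    · rw [hM]
      simp
    obtain ⟨a₀, ha₀⟩ := nonempty_iff_ne_empty.2 hM
    exact bad_card M X s (P h) (j * E) (2 * W * (Q * n + ν + h) + ρ) hpp (hX h hhK)
      (c.jacp j (Q * n + ν + h) hj1 a₀ ha₀).1 (fun a ha => (c.jacp j (Q * n + ν + h) hj1 a ha).2)
      (hExc h hhK) (by rw [hP]; simp) (hrough h hhK)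
  calc _ ≤ ∑ _h ∈ (range K).filter (fun h => (P h).Prime), s * s := sum_le_sum h1
    _ = ((range K).filter (fun h => (P h).Prime)).card * (s * s) := by rw [sum_const, smul_eq_mul]
    _ ≤ K * (s * s) := Nat.mul_le_mul_right _ (by
        calc _ ≤ (range K).card := card_filter_le _ _
          _ = K := card_range K)

end

end Pool.Agent.J4H36.ST
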