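import Pool.Agent.J4H36.ST.S4

set_option autoImplicit false

/-! # The family as a family of pairs -/

namespace Pool.Agent.J4H36.ST

open Finset

section
variable {M : Finset ℤ} {W ρ r E H Q ν T₂ K : ℕ}

/-- the family: the class `g` has the level `g / T₂` -/
def FH (W ρ E Q ν T₂ K : ℕ) (g : Fin (5 * T₂)) (i : Fin K) : ℤ × ℤ :=
  (((2 ^ ((g : ℕ) / T₂ * E) * (2 * W * Q) : ℕ) : ℤ),
    ((2 ^ ((g : ℕ) / T₂ * E) * (2 * W * (ν + ((g : ℕ) % T₂ * K + i)) + ρ) + dd ((g : ℕ) / T₂) : ℕ) : ℤ))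

theorem lev_le (g : Fin (5 * T₂)) : (g : ℕ) / T₂ ≤ 4 := by
  have h1 : (g : ℕ) < 5 * T₂ := g.2
  have h2 : (g : ℕ) / T₂ < 5 := Nat.div_lt_of_lt_mul (by rw [mul_comm T₂ 5]; exact h1)
  omega

theorem T₂_pos (g : Fin (5 * T₂)) : 0 < T₂ := by
  have h1 : (g : ℕ) < 5 * T₂ := g.2
  omega

theorem idx_lt (g : Fin (5 * T₂)) (i : Fin K) : (g : ℕ) % T₂ * K + i < T₂ * K := by
  have h1 := Nat.mod_lt (g : ℕ) (T₂_pos g)
  have h2 := i.2
  calc (g : ℕ) % T₂ * K + i < (g : ℕ) % T₂ * K + K := by omega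
    _ = ((g : ℕ) % T₂ + 1) * K := by ring
    _ ≤ T₂ * K := Nat.mul_le_mul_right _ h1

theorem idx_inj {a b : ℕ} {i j : Fin K} (h : a * K + i = b * K + j) : a = b ∧ i = j := by
  have hi := i.2
  have hj := j.2
  have h1 : a = b := by
    have h4 := congrArg (fun z => z / K) h
    rw [mul_comm a, mul_comm b, Nat.mul_add_div (by omega), Nat.mul_add_div (by omega),
      Nat.div_eq_of_lt hi, Nat.div_eq_of_lt hj] at h4
    omega
  refine ⟨h1, ?_⟩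
  rw [h1] at h
  exact Fin.ext (by omega)

theorem FH_eval (g : Fin (5 * T₂)) (i : Fin K) (n : ℕ) :
    (FH W ρ E Q ν T₂ K g i).1 * (n : ℤ) + (FH W ρ E Q ν T₂ K g i).2 =
    ((2 ^ ((g : ℕ) / T₂ * E) * (2 * W * (Q * n + ν + ((g : ℕ) % T₂ * K + i)) + ρ) +
      dd ((g : ℕ) / T₂) : ℕ) : ℤ) := by
  unfold FH
  push_cast
  ring

theorem FH_inj (c : Cfg M W ρ r E (T₂ * K) H Q ν) :
    Function.Injective (fun x : Fin (5 * T₂) × Fin K => FH W ρ E Q ν T₂ K x.1 x.2) := by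
  rintro ⟨g, i⟩ ⟨g', i'⟩ h
  have hW := c.W0
  have hQ := c.Q1
  have hE := c.E3
  simp only [FH, Prod.mk.injEq, Nat.cast_inj] at h
  obtain ⟨h1, h2⟩ := h
  have h3 : 2 ^ ((g : ℕ) / T₂ * E) = 2 ^ ((g' : ℕ) / T₂ * E) :=
    Nat.eq_of_mul_eq_mul_right (by positivity) h1
  have h4 : (g : ℕ) / T₂ * E = (g' : ℕ) / T₂ * E := Nat.pow_right_injective le_rfl h3
  have h5 : (g : ℕ) / T₂ = (g' : ℕ) / T₂ := Nat.eq_of_mul_eq_mul_right (by omega) h4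
  rw [← h5] at h2
  have h6 := Nat.eq_of_mul_eq_mul_left (by positivity) (Nat.add_right_cancel h2)
  have h7 := Nat.eq_of_mul_eq_mul_left (by positivity) (Nat.add_right_cancel h6)
  obtain ⟨h8, h9⟩ := idx_inj (Nat.add_left_cancel h7)
  have h10 : (g : ℕ) = g' := by
    rw [← Nat.div_add_mod (g : ℕ) T₂, ← Nat.div_add_mod (g' : ℕ) T₂, h5, h8]
  exact Prod.ext (Fin.ext h10) h9

theorem FH_cop (c : Cfg M W ρ r E (T₂ * K) H Q ν) (g : Fin (5 * T₂)) (i : Fin K) :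
    IsCoprime (FH W ρ E Q ν T₂ K g i).1 (FH W ρ E Q ν T₂ K g i).2 :=
  Nat.isCoprime_iff_coprime.2 (c.cop _ _ (lev_le g) (idx_lt g i))

theorem FH_loc (c : Cfg M W ρ r E (T₂ * K) H Q ν) (y : ℕ)
    (hy : ∀ p : ℕ, p.Prime → p ≤ y → p ∣ 2 * W) (p : ℕ) (hp : p.Prime) (hpy : p ≤ y) :
    ∃ r' : ℤ, ∀ g i, ¬ (p : ℤ) ∣ (FH W ρ E Q ν T₂ K g i).1 * r' + (FH W ρ E Q ν T₂ K g i).2 := by
  refine ⟨0, fun g i h => ?_⟩
  rw [mul_zero, zero_add] at h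
  have h1 : (p : ℤ) ∣ (FH W ρ E Q ν T₂ K g i).1 := by
    unfold FH
    exact Int.natCast_dvd_natCast.2 (((hy p hp hpy).mul_right Q).mul_left _)
  have h2 := (FH_cop c g i).isUnit_of_dvd' h1 h
  rw [Int.ofNat_isUnit, Nat.isUnit_iff] at h2
  exact hp.one_lt.ne' h2

end

end Pool.Agent.J4H36.ST
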