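import Pool.Agent.J4H36.ST.S5

set_option autoImplicit false

/-! # Counting at one scale -/

namespace Pool.Agent.J4H36.ST

open Finset
open Pool.Agent.Y855 (Exc MI)

open Classical in
/-- the interval `(m, m + H]` contains at least `k` primes, and all elements of `M'` are primitive roots modulo
all its primes -/
def Sg (k H : ℕ) (M' : Finset ℤ) (m : ℕ) : Prop :=
  k ≤ ((Ioc m (m + H)).filter Nat.Prime).card ∧
    ∀ p ∈ Ioc m (m + H), p.Prime → ∀ a ∈ M', orderOf (a : ZMod p) = p - 1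

section
variable {M : Finset ℤ} {W ρ r E H Q ν T₂ K : ℕ}

theorem level_exists (k : ℕ) (hk : 1 ≤ k) (S : Finset (Fin (5 * T₂))) (hS : T₂ + 4 * k ≤ S.card) :
    ∃ j, 1 ≤ j ∧ j ≤ 4 ∧ k ≤ (S.filter (fun g : Fin (5 * T₂) => (g : ℕ) / T₂ = j)).card := by
  classical
  by_contra hcon
  push Not at hcon
  have h1 : S.card = ∑ j ∈ range 5, (S.filter (fun g : Fin (5 * T₂) => (g : ℕ) / T₂ = j)).card :=
    card_eq_sum_card_fiberwise (fun g _ => by
      have := lev_le g
      simp only [coe_range, Set.mem_Iio]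
      omega)
  have h0 : (S.filter (fun g : Fin (5 * T₂) => (g : ℕ) / T₂ = 0)).card ≤ T₂ := by
    have h2 : (S.filter (fun g : Fin (5 * T₂) => (g : ℕ) / T₂ = 0)).card ≤ (range T₂).card := by
      apply card_le_card_of_injOn (fun g : Fin (5 * T₂) => (g : ℕ))
      · intro g hg
        have hg' : g ∈ S.filter (fun g : Fin (5 * T₂) => (g : ℕ) / T₂ = 0) := hg
        rw [mem_filter] at hg'
        have h3 := T₂_pos g
        simp only [coe_range, Set.mem_Iio]
        rcases Nat.div_eq_zero_iff.1 hg'.2 with h4 | h4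
        · omega
        · exact h4
      · intro g _ g' _ h
        exact Fin.ext h
    rwa [card_range] at h2
  rw [sum_range_succ, sum_range_succ, sum_range_succ, sum_range_succ, sum_range_one] at h1
  have e1 := hcon 1 le_rfl (by norm_num)
  have e2 := hcon 2 (by norm_num) (by norm_num)
  have e3 := hcon 3 (by norm_num) (by norm_num)
  have e4 := hcon 4 (by norm_num) le_rfl
  omega

theorem mm_inj (c : Cfg M W ρ r E (T₂ * K) H Q ν) (j h : ℕ) {n n' : ℕ}
    (hnn : 2 ^ (j * E) * (2 * W * (Q * n + ν + h) + ρ) = 2 ^ (j * E) * (2 * W * (Q * n' + ν + h) + ρ)) :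
    n = n' := by
  have hW := c.W0
  have hQ := c.Q1
  have h1 := Nat.eq_of_mul_eq_mul_left (by positivity) hnn
  have h2 := Nat.eq_of_mul_eq_mul_left (by positivity) (Nat.add_right_cancel h1)
  exact Nat.eq_of_mul_eq_mul_left (by omega) (Nat.add_right_cancel (Nat.add_right_cancel h2))

open Classical in
theorem countN (c : Cfg M W ρ r E (T₂ * K) H Q ν) (k N X s : ℕ) (hk : 1 ≤ k)
    (S : Finset (Fin (5 * T₂))) (σ : Fin (5 * T₂) → Fin K) (A : Finset ℕ)
    (hA : ∀ n ∈ A, 1 ≤ n ∧ n ≤ N)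
    (hrough : ∀ n ∈ A, ∀ h < T₂ * K, ∀ l : ℕ, l.Prime → l ∣ 2 * W * (Q * n + ν + h) + ρ →
      X ^ 2 ≤ l ^ s)
    (hprime : ∀ n ∈ A, ∀ g ∈ S, (2 ^ ((g : ℕ) / T₂ * E) *
      (2 * W * (Q * n + ν + ((g : ℕ) % T₂ * K + σ g)) + ρ) + dd ((g : ℕ) / T₂)).Prime)
    (hX : ∀ n ≤ N, ∀ j ≤ 4, ∀ h < T₂ * K, 2 ^ (j * E) * (2 * W * (Q * n + ν + h) + ρ) + 1 ≤ X)
    (hS : T₂ + 4 * k ≤ S.card) :
    ∃ M' ⊆ M, (M \ M').card ≤ T₂ * K * (s * s) ∧ ∃ j, 1 ≤ j ∧ j ≤ 4 ∧
      A.card ≤ 2 ^ M.card * (A.filter (fun n => Sg k H M' (mm W ρ E Q ν j n))).card +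
        4 * (T₂ * K) * (Exc X s M).card := by
  obtain ⟨j, hj1, hj4, hjk⟩ := level_exists k hk S hS
  -- the exceptional points
  set P : ℕ → ℕ → ℕ := fun h n => 2 ^ (j * E) * (2 * W * (Q * n + ν + h) + ρ) + 1 with hP
  set Ex : Finset ℕ := A.filter (fun n => ∃ h ∈ range (T₂ * K), P h n ∈ Exc X s M) with hEx
  have hExc : Ex.card ≤ (T₂ * K) * (Exc X s M).card := by
    have hsub : Ex ⊆ (range (T₂ * K)).biUnion (fun h => A.filter (fun n => P h n ∈ Exc X s M)) := by
      intro n hn
      rw [hEx, mem_filter] at hn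
      obtain ⟨hnA, h, hh, hE⟩ := hn
      exact mem_biUnion.2 ⟨h, hh, mem_filter.2 ⟨hnA, hE⟩⟩
    refine (card_le_card hsub).trans (card_biUnion_le.trans ?_)
    have h1 : ∀ h ∈ range (T₂ * K), (A.filter (fun n => P h n ∈ Exc X s M)).card ≤
        (Exc X s M).card := by
      intro h _
      apply card_le_card_of_injOn (P h)
      · intro n hn
        exact (mem_filter.1 hn).2
      · intro n _ n' _ hnn
        exact mm_inj c j h (Nat.add_right_cancel hnn)
    calc _ ≤ ∑ _h ∈ range (T₂ * K), (Exc X s M).card := sum_le_sum h1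
      _ = _ := by rw [sum_const, card_range, smul_eq_mul]
  set G : Finset ℕ := A \ Ex with hG
  have hGA : A.card ≤ G.card + Ex.card := by
    rw [hG]
    have := le_card_sdiff Ex A
    omega
  -- at the other points few elements are bad
  have hbad : ∀ n ∈ G, (Bad M H (mm W ρ E Q ν j n)).card ≤ T₂ * K * (s * s) := by
    intro n hn
    rw [hG, mem_sdiff] at hn
    obtain ⟨hnA, hnE⟩ := hn
    apply c.bad j n X s hj1 hj4 (hA n hnA).1
    · intro h hh
      exact hX n (hA n hnA).2 j hj4 h hh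
    · intro h hh hE
      exact hnE (mem_filter.2 ⟨hnA, h, mem_range.2 hh, hE⟩)
    · exact hrough n hnA
  -- pigeonhole
  have hsum : G.card = ∑ T ∈ M.powerset, (G.filter (fun n => Bad M H (mm W ρ E Q ν j n) = T)).card :=
    card_eq_sum_card_fiberwise (fun n _ => by
      rw [mem_coe, mem_powerset]
      exact filter_subset _ _)
  obtain ⟨T, hT, hTc⟩ : ∃ T ∈ M.powerset, G.card ≤ 2 ^ M.card *
      (G.filter (fun n => Bad M H (mm W ρ E Q ν j n) = T)).card := by
    by_contra hcon
    push Not at hcon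
    have h1 : ∑ T ∈ M.powerset, 2 ^ M.card *
        (G.filter (fun n => Bad M H (mm W ρ E Q ν j n) = T)).card < ∑ _T ∈ M.powerset, G.card :=
      sum_lt_sum_of_nonempty ⟨∅, empty_mem_powerset M⟩ hcon
    rw [← mul_sum, ← hsum, sum_const, card_powerset, smul_eq_mul] at h1
    omega
  have hrun : ∀ n ∈ G, Bad M H (mm W ρ E Q ν j n) = T → Sg k H (M \ T) (mm W ρ E Q ν j n) := by
    intro n hn hnT
    rw [hG, mem_sdiff] at hn
    obtain ⟨hnA, -⟩ := hn
    refine ⟨hjk.trans ?_, ?_⟩
    · apply card_le_card_of_injOn (fun g : Fin (5 * T₂) => P ((g : ℕ) % T₂ * K + σ g) n)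
      · intro g hg
        have hg' : g ∈ S.filter (fun g : Fin (5 * T₂) => (g : ℕ) / T₂ = j) := hg
        rw [mem_filter] at hg'
        obtain ⟨hgS, hgj⟩ := hg'
        have h1 := hprime n hnA g hgS
        rw [hgj] at h1
        have hdd : dd j = 1 := by unfold dd; rw [if_neg (by omega)]
        rw [hdd] at h1
        have hlt := idx_lt g (σ g)
        simp only [coe_filter, Set.mem_setOf_eq, mem_Ioc]
        refine ⟨?_, h1⟩
        have e1 : P ((g : ℕ) % T₂ * K + σ g) n = mm W ρ E Q ν j n +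
            (2 ^ (j * E) * (2 * W * ((g : ℕ) % T₂ * K + σ g)) + 1) := by
          rw [hP]
          unfold mm
          ring
        rw [e1, c.HH]
        have e2 : 2 ^ (j * E) * (2 * W * ((g : ℕ) % T₂ * K + σ g)) ≤
            2 ^ (4 * E) * (2 * W * (T₂ * K)) := by
          apply Nat.mul_le_mul
          · exact Nat.pow_le_pow_right (by norm_num) (Nat.mul_le_mul_right _ hj4)
          · exact Nat.mul_le_mul_left _ hlt.le
        constructor <;> omega
      · intro g hg g' hg' h
        have hg1 : g ∈ S.filter (fun g : Fin (5 * T₂) => (g : ℕ) / T₂ = j) := hg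
        have hg2 : g' ∈ S.filter (fun g : Fin (5 * T₂) => (g : ℕ) / T₂ = j) := hg'
        rw [mem_filter] at hg1 hg2
        have hW := c.W0
        have h1 := Nat.eq_of_mul_eq_mul_left (by positivity) (Nat.add_right_cancel h)
        have h2 := Nat.eq_of_mul_eq_mul_left (by positivity) (Nat.add_right_cancel h1)
        obtain ⟨h3, -⟩ := idx_inj (Nat.add_left_cancel h2)
        apply Fin.ext
        rw [← Nat.div_add_mod (g : ℕ) T₂, ← Nat.div_add_mod (g' : ℕ) T₂, hg1.2, hg2.2, h3]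
    · intro p hp hpp a ha
      by_contra hord
      rw [mem_sdiff] at ha
      apply ha.2
      rw [← hnT]
      unfold Bad
      exact mem_filter.2 ⟨ha.1, p, hp, hpp, hord⟩
  rcases (G.filter (fun n => Bad M H (mm W ρ E Q ν j n) = T)).eq_empty_or_nonempty with he | hne
  · -- no point at all
    rw [he, card_empty, mul_zero, Nat.le_zero] at hTc
    refine ⟨M, Subset.refl _, by simp, j, hj1, hj4, ?_⟩
    have h1 : Ex.card ≤ 4 * (T₂ * K) * (Exc X s M).card := by
      refine hExc.trans (Nat.mul_le_mul_right _ (by omega))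
    omega
  · obtain ⟨n₀, hn₀⟩ := hne
    rw [mem_filter] at hn₀
    refine ⟨M \ T, sdiff_subset, ?_, j, hj1, hj4, ?_⟩
    · have h1 := hbad n₀ hn₀.1
      rw [hn₀.2] at h1
      refine le_trans (card_le_card ?_) h1
      intro a ha
      rw [mem_sdiff, mem_sdiff] at ha
      by_contra h
      exact ha.2 ⟨ha.1, h⟩
    · have h1 : Ex.card ≤ 4 * (T₂ * K) * (Exc X s M).card := by
        refine hExc.trans (Nat.mul_le_mul_right _ (by omega))
      have h2 : (G.filter (fun n => Bad M H (mm W ρ E Q ν j n) = T)).card ≤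
          (A.filter (fun n => Sg k H (M \ T) (mm W ρ E Q ν j n))).card := by
        apply card_le_card
        intro n hn
        rw [mem_filter] at hn ⊢
        exact ⟨(mem_sdiff.1 hn.1).1, hrun n hn.1 hn.2⟩
      have h3 := Nat.mul_le_mul_left (2 ^ M.card) h2
      omega

end

end Pool.Agent.J4H36.ST
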