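import Pool.Agent.J4H36.ST.S6
import Pool.Agent.J4H36.ST.N1
import Pool.Agent.J4H36.A3
import Pool.Agent.Y827.RO.LamR

set_option autoImplicit false

/-! # Simultaneous primitive roots for strings of consecutive primes -/

namespace Pool.Agent.J4H36.ST

open Finset Filter
open Pool.Agent.Y855 (Exc MI)
open Pool.Agent.Y827.GS (Adf)
open Pool.Agent.Y827.RO (Rs lamR0)

open Classical in
/-- the number of the good intervals -/
noncomputable def cntS (k H : ℕ) (M' : Finset ℤ) (x : ℕ) : ℕ := ((Icc 1 x).filter (Sg k H M')).card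

theorem cntS_mono (k H : ℕ) (M' : Finset ℤ) {x y : ℕ} (h : x ≤ y) : cntS k H M' x ≤ cntS k H M' y := by
  classical
  exact card_le_card (filter_subset_filter _ (Icc_subset_Icc_right h))

theorem partA (k : ℕ) (hk : 1 ≤ k) : ∃ B κ : ℕ, ∀ M₀ : Finset ℤ, (∀ a ∈ M₀, a ≠ 0) →
    ∃ H : ℕ, ∀ M ⊆ M₀, MI M →
    ∀ p₀ : ℕ, p₀.Prime → p₀ % 24 = 17 → (∀ a ∈ M, ¬ IsSquare ((a : ℤ) : ZMod p₀)) →
    ∀ᶠ x : ℕ in atTop, ∃ M' ⊆ M, (M \ M').card ≤ B ∧
      (x : ℝ) / Real.log x ^ κ ≤ (cntS k H M' x : ℝ) := by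
  classical
  have hT : ((18 : ℝ) / 5) * ((25 * k - 1 : ℕ) : ℝ) < ((5 * (18 * k) : ℕ) : ℝ) := by
    have h1 : ((25 * k - 1 : ℕ) : ℝ) = 25 * k - 1 := by
      rw [Nat.cast_sub (by omega : 1 ≤ 25 * k)]
      push_cast
      ring
    rw [h1]
    push_cast
    linarith
  obtain ⟨K, hK, δ, hδ, HL⟩ := lamR0 (5 * (18 * k)) (25 * k - 1) (by omega) hT
  set T₂ : ℕ := 18 * k with hT₂
  set s : ℕ := ⌈4 / δ⌉₊ + 2 with hs
  have hs2 : 2 ≤ s := by omega
  have hsδ : 4 ≤ s * δ := by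
    have h1 : 4 / δ ≤ (⌈4 / δ⌉₊ : ℝ) := Nat.le_ceil _
    have h2 : (s : ℝ) = (⌈4 / δ⌉₊ : ℝ) + 2 := by rw [hs]; push_cast; ring
    rw [div_le_iff₀ hδ] at h1
    rw [h2]
    nlinarith
  obtain ⟨κ₀, hκ₀⟩ : ∃ κ₀, κ₀ = 5 * T₂ * K + 1 := ⟨_, rfl⟩
  refine ⟨T₂ * K * (s * s), κ₀ + 1, ?_⟩
  intro M₀ hM00
  obtain ⟨W, hWo, hoW, hy⟩ := modulus_exists M₀ hM00 (5 * T₂ * K)
  obtain ⟨E, hE⟩ : ∃ E, E = 3 * W.totient := ⟨_, rfl⟩
  obtain ⟨H, hH⟩ : ∃ H, H = 2 ^ (4 * E) * (2 * W * (T₂ * K)) + 1 := ⟨_, rfl⟩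
  refine ⟨H, ?_⟩
  intro M hMM₀ hMI p₀ hp₀ h24 hM
  have hM0 : ∀ a ∈ M, a ≠ 0 := fun a ha => hM00 a (hMM₀ ha)
  obtain ⟨ρ, r, Q, ν, c⟩ := cfg_exists M hM0 p₀ hp₀ h24 hM W (T₂ * K) hWo
    (fun a ha => hoW a (hMM₀ ha))
  rw [← hE, ← hH] at c
  obtain ⟨s₀, c₀, hc₀, HN⟩ := HL (2 ^ (4 * E) * (2 * W * Q))
  have hW := c.W0
  have hQ := c.Q1
  have hρ := c.ρodd
  -- constants
  obtain ⟨C₁, hC₁⟩ : ∃ C₁, C₁ = 2 ^ (4 * E) * (2 * W * (Q + ν) + ρ) := ⟨_, rfl⟩
  obtain ⟨C₂, hC₂⟩ : ∃ C₂, C₂ = 2 ^ (4 * E) * (2 * W * (Q + ν + T₂ * K) + ρ) + 1 := ⟨_, rfl⟩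
  obtain ⟨D₀, hD₀⟩ : ∃ D₀, D₀ = 2 ^ (4 * E) * (2 * W * (ν + T₂ * K) + ρ) + 1 := ⟨_, rfl⟩
  have hC₁1 : 1 ≤ C₁ := by
    rw [hC₁]
    exact Nat.mul_pos (by positivity) (by omega)
  have hC₂1 : 1 ≤ C₂ := by rw [hC₂]; omega
  obtain ⟨T, hTd⟩ : ∃ T : ℝ, T = 1 + M.card + ∑ n ∈ M, |(n : ℝ)| := ⟨_, rfl⟩
  have hsum0 : 0 ≤ ∑ n ∈ M, |(n : ℝ)| := sum_nonneg fun n _ => abs_nonneg _
  have hT1 : 1 ≤ T := by
    rw [hTd]
    have : (0 : ℝ) ≤ M.card := Nat.cast_nonneg _
    linarith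
  have hMT : (M.card : ℝ) ≤ T := by rw [hTd]; linarith
  have hMH : ∀ n ∈ M, |(n : ℝ)| ≤ Real.exp T := by
    intro n hn
    have h1 : |(n : ℝ)| ≤ ∑ n ∈ M, |(n : ℝ)| :=
      single_le_sum (f := fun n : ℤ => |(n : ℝ)|) (fun _ _ => abs_nonneg _) hn
    have h2 := Real.add_one_le_exp T
    have : (0 : ℝ) ≤ M.card := Nat.cast_nonneg _
    rw [hTd] at h2 ⊢
    linarith
  -- the constant of the error term
  obtain ⟨Ce, hCe⟩ : ∃ Ce : ℝ, Ce = 4 * (T₂ * K : ℕ) * (6 * s * (5 * T) ^ (s + 1) *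
    (C₂ : ℝ) ^ (1 - 1 / (s : ℝ))) := ⟨_, rfl⟩
  have hCe0 : 0 ≤ Ce := by rw [hCe]; positivity
  have hpowle : ∀ j, j ≤ 4 → 2 ^ (j * E) ≤ 2 ^ (4 * E) := fun j hj =>
    Nat.pow_le_pow_right (by norm_num) (Nat.mul_le_mul_right _ hj)
  -- one scale
  have hscale : ∀ᶠ N : ℕ in atTop, ∃ M' ⊆ M, (M \ M').card ≤ T₂ * K * (s * s) ∧
      (c₀ / 2 / 2 ^ M.card) * (N / Real.log N ^ κ₀) ≤ (cntS k H M' (C₁ * N) : ℝ) := by
    filter_upwards [HN, eventually_ge_atTop D₀, eventually_ge_atTop C₂, eventually_ge_atTop 3,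
      num1 (c₀ / 2) Ce κ₀ s (by positivity) hCe0 hs2] with N hN hND hNC hN3 hnum
    have hN0 : (0 : ℝ) < N := by exact_mod_cast (by omega : 0 < N)
    have hN1 : (1 : ℝ) < N := by exact_mod_cast (by omega : 1 < N)
    have hlogN : 0 < Real.log N := Real.log_pos hN1
    obtain ⟨s', S, σ, -, -, -, hS, hRs⟩ := hN (FH W ρ E Q ν T₂ K) (FH_inj c) (by
      intro g i
      have hj := lev_le g
      have hi := idx_lt g i
      refine ⟨?_, ?_, ?_, FH_cop c g i, ?_⟩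
      · unfold FH
        simp only [ne_eq, Nat.cast_eq_zero]
        positivity
      · unfold FH
        simp only [Nat.abs_cast]
        exact_mod_cast Nat.mul_le_mul_right _ (hpowle _ hj)
      · unfold FH
        simp only [Nat.abs_cast]
        have h1 : 2 ^ ((g : ℕ) / T₂ * E) * (2 * W * (ν + ((g : ℕ) % T₂ * K + i)) + ρ) +
            dd ((g : ℕ) / T₂) ≤ D₀ := by
          rw [hD₀]
          apply Nat.add_le_add
          · apply Nat.mul_le_mul (hpowle _ hj)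
            apply Nat.add_le_add_right
            exact Nat.mul_le_mul_left _ (by omega)
          · unfold dd
            split_ifs <;> omega
        exact_mod_cast h1.trans hND
      · intro t ht1 ht2
        unfold FH
        simp only [Int.cast_natCast]
        have h1 : (1 : ℝ) ≤ ((2 ^ ((g : ℕ) / T₂ * E) * (2 * W * Q) : ℕ) : ℝ) := by
          have : 1 ≤ 2 ^ ((g : ℕ) / T₂ * E) * (2 * W * Q) := Nat.mul_pos (by positivity)
            (Nat.mul_pos (by omega) (by omega))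
          exact_mod_cast this
        have h2 : (0 : ℝ) ≤ ((2 ^ ((g : ℕ) / T₂ * E) * (2 * W * (ν + ((g : ℕ) % T₂ * K + i)) + ρ) +
            dd ((g : ℕ) / T₂) : ℕ) : ℝ) := Nat.cast_nonneg _
        nlinarith) (fun p hp hpy => FH_loc c (5 * T₂ * K) hy p hp (by simpa using hpy))
    set A : Finset ℕ := Rs (FH W ρ E Q ν T₂ K) δ s' S σ N with hA
    have hAmem : ∀ n ∈ A, (1 ≤ n ∧ n ≤ N) ∧
        (∀ g i, ∀ p : ℕ, p.Prime → Real.log p ≤ δ * Real.log N →
          ¬ (p : ℤ) ∣ (FH W ρ E Q ν T₂ K g i).1 * n + (FH W ρ E Q ν T₂ K g i).2) ∧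
        ∀ g ∈ S, ((FH W ρ E Q ν T₂ K g (σ g)).1 * (n : ℤ) +
          (FH W ρ E Q ν T₂ K g (σ g)).2).toNat.Prime := by
      intro n hn
      rw [hA] at hn
      unfold Rs at hn
      rw [mem_filter, mem_Icc] at hn
      exact ⟨hn.1, hn.2.2.2.1, hn.2.2.2.2⟩
    obtain ⟨X, hX⟩ : ∃ X, X = C₂ * N := ⟨_, rfl⟩
    have hXN : X ≤ N ^ 2 := by
      rw [hX, sq]
      exact Nat.mul_le_mul_right _ hNC
    have hX1 : 1 ≤ X := by
      rw [hX]
      exact Nat.mul_pos hC₂1 (by omega)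
    obtain ⟨M', hM'M, hM'c, j, hj1, hj4, hcount⟩ := countN c k N X s hk S σ A
      (fun n hn => (hAmem n hn).1)
      (by
        intro n hn h hh l hl hld
        obtain ⟨-, hr1, -⟩ := hAmem n hn
        -- the form of level `0` with the index `h`
        have hT₂0 : 0 < T₂ := by omega
        have hKpos : 0 < K := by omega
        have hhT : h / K < T₂ := Nat.div_lt_of_lt_mul (by rw [mul_comm K T₂]; exact hh)
        have hgl : h / K < 5 * T₂ := by omega
        have hlog : ¬ Real.log l ≤ δ * Real.log N := by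
          intro hle
          apply hr1 ⟨h / K, hgl⟩ ⟨h % K, Nat.mod_lt _ hKpos⟩ l hl hle
          rw [FH_eval]
          simp only
          rw [Nat.div_eq_of_lt hhT, Nat.mod_eq_of_lt hhT]
          have h3 : h / K * K + h % K = h := Nat.div_add_mod' h K
          rw [h3]
          simpa [dd] using Int.natCast_dvd_natCast.2 hld
        push Not at hlog
        have hl0 : (0 : ℝ) < l := by exact_mod_cast hl.pos
        have hX0 : (0 : ℝ) < X := by exact_mod_cast hX1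
        have h4 : Real.log ((X : ℝ) ^ 2) ≤ Real.log ((l : ℝ) ^ s) := by
          rw [Real.log_pow, Real.log_pow]
          have h5 : Real.log X ≤ 2 * Real.log N := by
            have h6 : Real.log X ≤ Real.log ((N : ℝ) ^ 2) := Real.log_le_log hX0 (by exact_mod_cast hXN)
            rwa [Real.log_pow] at h6
          have h7 : 4 * Real.log N ≤ s * (δ * Real.log N) := by
            calc 4 * Real.log N ≤ (s * δ) * Real.log N := mul_le_mul_of_nonneg_right hsδ hlogN.le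
              _ = _ := by ring
          have h8 : (s : ℝ) * (δ * Real.log N) ≤ s * Real.log l :=
            mul_le_mul_of_nonneg_left hlog.le (Nat.cast_nonneg _)
          push_cast
          linarith
        have h9 : (X : ℝ) ^ 2 ≤ (l : ℝ) ^ s :=
          (Real.log_le_log_iff (by positivity) (by positivity)).1 h4
        exact_mod_cast h9)
      (by
        intro n hn g hg
        obtain ⟨-, -, hp⟩ := hAmem n hn
        have h1 := hp g hg
        rw [FH_eval, Int.toNat_natCast] at h1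
        exact h1)
      (by
        intro n hn j hj h hh
        rw [hX, hC₂, Nat.add_mul, one_mul]
        apply Nat.add_le_add _ (by omega)
        have h1 : 2 * W * (Q * n + ν + h) + ρ ≤ (2 * W * (Q + ν + T₂ * K) + ρ) * N := by
          have h2 : Q * n + ν + h ≤ (Q + ν + T₂ * K) * N := by
            have h3 : Q * n ≤ Q * N := Nat.mul_le_mul_left _ hn
            have h4 : ν ≤ ν * N := Nat.le_mul_of_pos_right _ (by omega)
            have h5 : h ≤ T₂ * K * N := hh.le.trans (Nat.le_mul_of_pos_right _ (by omega))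
            calc Q * n + ν + h ≤ Q * N + ν * N + T₂ * K * N := by omega
              _ = _ := by ring
          have h3 : ρ ≤ ρ * N := Nat.le_mul_of_pos_right _ (by omega)
          calc 2 * W * (Q * n + ν + h) + ρ ≤ 2 * W * ((Q + ν + T₂ * K) * N) + ρ * N :=
                Nat.add_le_add (Nat.mul_le_mul_left _ h2) h3
            _ = _ := by ring
        calc 2 ^ (j * E) * (2 * W * (Q * n + ν + h) + ρ)
            ≤ 2 ^ (4 * E) * ((2 * W * (Q + ν + T₂ * K) + ρ) * N) := Nat.mul_le_mul (hpowle j hj) h1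
          _ = _ := by ring)
      (by omega)
    refine ⟨M', hM'M, hM'c, ?_⟩
    -- the number of the intervals
    have hinj : (A.filter (fun n => Sg k H M' (mm W ρ E Q ν j n))).card ≤ cntS k H M' (C₁ * N) := by
      unfold cntS
      apply card_le_card_of_injOn (mm W ρ E Q ν j)
      · intro n hn
        have hn' : n ∈ A.filter (fun n => Sg k H M' (mm W ρ E Q ν j n)) := hn
        rw [mem_filter] at hn'
        obtain ⟨hnA, hnS⟩ := hn'
        obtain ⟨⟨hn1, hnN⟩, -, -⟩ := hAmem n hnA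
        change mm W ρ E Q ν j n ∈ (Icc 1 (C₁ * N)).filter (Sg k H M')
        rw [mem_filter, mem_Icc]
        refine ⟨⟨?_, ?_⟩, hnS⟩
        · unfold mm
          exact Nat.mul_pos (by positivity) (by omega)
        · have e0 : C₁ * N = 2 ^ (4 * E) * ((2 * W * (Q + ν) + ρ) * N) := by rw [hC₁, mul_assoc]
          rw [e0]
          unfold mm
          apply Nat.mul_le_mul (hpowle j hj4)
          have h3 : Q * n ≤ Q * N := Nat.mul_le_mul_left _ hnN
          have h4 : ν ≤ ν * N := Nat.le_mul_of_pos_right _ (by omega)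
          have h5 : ρ ≤ ρ * N := Nat.le_mul_of_pos_right _ (by omega)
          calc 2 * W * (Q * n + ν) + ρ ≤ 2 * W * (Q * N + ν * N) + ρ * N :=
                Nat.add_le_add (Nat.mul_le_mul_left _ (by omega)) h5
            _ = _ := by ring
      · intro n _ n' _ hnn
        have h1 : 2 ^ (j * E) * (2 * W * (Q * n + ν + 0) + ρ) =
            2 ^ (j * E) * (2 * W * (Q * n' + ν + 0) + ρ) := hnn
        exact mm_inj c j 0 h1
    -- the exceptional set
    have hExc : (4 * (T₂ * K) * (Exc X s M).card : ℕ) ≤ Ce * (N : ℝ) ^ (1 - 1 / (s : ℝ)) := by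
      have h1 := Pool.Agent.J4H36.Exc_T X s hX1 hs2 M hM0 hMI T hT1 hMT hMH
      have h2 : (X : ℝ) ^ (1 - 1 / (s : ℝ)) = (C₂ : ℝ) ^ (1 - 1 / (s : ℝ)) * (N : ℝ) ^ (1 - 1 / (s : ℝ)) := by
        rw [hX]
        push_cast
        exact Real.mul_rpow (Nat.cast_nonneg _) (Nat.cast_nonneg _)
      rw [h2] at h1
      push_cast
      calc (4 : ℝ) * (T₂ * K) * (Exc X s M).card ≤ 4 * (T₂ * K) * (6 * s * (5 * T) ^ (s + 1) *
            ((C₂ : ℝ) ^ (1 - 1 / (s : ℝ)) * (N : ℝ) ^ (1 - 1 / (s : ℝ)))) := by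
              apply mul_le_mul_of_nonneg_left h1
              positivity
        _ = Ce * (N : ℝ) ^ (1 - 1 / (s : ℝ)) := by
              rw [hCe]
              push_cast
              ring
    have hκ : (5 * T₂ * K + 1 : ℕ) = κ₀ := hκ₀.symm
    rw [show (5 * (18 * k)) * K + 1 = κ₀ by rw [hκ₀, hT₂]] at hRs
    have h5 : (A.card : ℝ) ≤ 2 ^ M.card * (cntS k H M' (C₁ * N) : ℝ) +
        Ce * (N : ℝ) ^ (1 - 1 / (s : ℝ)) := by
      have h6 : (A.card : ℝ) ≤ ((2 ^ M.card * (A.filter (fun n => Sg k H M' (mm W ρ E Q ν j n))).card : ℕ) : ℝ)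
          + ((4 * (T₂ * K) * (Exc X s M).card : ℕ) : ℝ) := by exact_mod_cast hcount
      have h7 : ((2 ^ M.card * (A.filter (fun n => Sg k H M' (mm W ρ E Q ν j n))).card : ℕ) : ℝ) ≤
          2 ^ M.card * (cntS k H M' (C₁ * N) : ℝ) := by
        push_cast
        apply mul_le_mul_of_nonneg_left _ (by positivity)
        exact_mod_cast hinj
      linarith
    have h8 : c₀ / 2 * (N / Real.log N ^ κ₀) ≤ 2 ^ M.card * (cntS k H M' (C₁ * N) : ℝ) := by
      have : c₀ * (N / Real.log N ^ κ₀) = c₀ / 2 * (N / Real.log N ^ κ₀) + c₀ / 2 * (N / Real.log N ^ κ₀) := by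
        ring
      linarith
    have h2p : (0 : ℝ) < 2 ^ M.card := by positivity
    calc c₀ / 2 / 2 ^ M.card * (N / Real.log N ^ κ₀) = (c₀ / 2 * (N / Real.log N ^ κ₀)) / 2 ^ M.card := by
          ring
      _ ≤ (2 ^ M.card * (cntS k H M' (C₁ * N) : ℝ)) / 2 ^ M.card := by gcongr
      _ = _ := by field_simp
  -- all scales
  obtain ⟨N₀, hN₀⟩ := eventually_atTop.1 hscale
  filter_upwards [eventually_ge_atTop (C₁ * N₀), num2 (c₀ / 2 / 2 ^ M.card) C₁ κ₀ (by positivity) hC₁1]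
    with x hx hnum
  have hNx : N₀ ≤ x / C₁ := (Nat.le_div_iff_mul_le (by omega)).2 (by rw [mul_comm]; exact hx)
  obtain ⟨M', h1, h2, h3⟩ := hN₀ (x / C₁) hNx
  refine ⟨M', h1, h2, hnum.trans (h3.trans ?_)⟩
  exact_mod_cast cntS_mono k H M' (Nat.mul_div_le x C₁)

end Pool.Agent.J4H36.ST
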