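import Pool.Agent.J4H36.ST.S1

set_option autoImplicit false

/-! # Half of the elements of a set are simultaneous non-residues -/

namespace Pool.Agent.J4H36.ST

open Finset NumberTheorySymbols

/-- the squarefree part of `a` is none of `± 1, ± 2` -/
def NS (a : ℤ) : Prop := ¬ IsSquare a ∧ ¬ IsSquare (-a) ∧ ¬ IsSquare (2 * a) ∧ ¬ IsSquare (-2 * a)

theorem NS.ne_zero {a : ℤ} (h : NS a) : a ≠ 0 := by
  rintro rfl
  exact h.1 ⟨0, by simp⟩

theorem NS.nonsq {a : ℤ} (h : NS a) : ¬ IsSquare (op a) := by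
  rintro ⟨b, hb⟩
  have ha := h.ne_zero
  have h3 : a.natAbs = 2 ^ (a.natAbs.factorization 2) * op a :=
    (Nat.ordProj_mul_ordCompl_eq_self _ _).symm
  set v := a.natAbs.factorization 2 with hv
  obtain ⟨h1, h2, h4, h5⟩ := h
  rcases Nat.even_or_odd v with ⟨w, hw⟩ | ⟨w, hw⟩
  · have e : ((a.natAbs : ℕ) : ℤ) = (2 ^ w * b) * (2 ^ w * b) := by
      have : a.natAbs = (2 ^ w * b) * (2 ^ w * b) := by rw [h3, hb, hw]; ring
      exact_mod_cast congrArg (fun z : ℕ => (z : ℤ)) this
    rcases Int.natAbs_eq a with h6 | h6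
    · exact h1 ⟨2 ^ w * b, by rw [h6, e]⟩
    · exact h2 ⟨2 ^ w * b, by rw [h6, neg_neg, e]⟩
  · have e : 2 * ((a.natAbs : ℕ) : ℤ) = (2 ^ (w + 1) * b) * (2 ^ (w + 1) * b) := by
      have : 2 * a.natAbs = (2 ^ (w + 1) * b) * (2 ^ (w + 1) * b) := by rw [h3, hb, hw]; ring
      exact_mod_cast congrArg (fun z : ℕ => (z : ℤ)) this
    rcases Int.natAbs_eq a with h6 | h6
    · exact h4 ⟨2 ^ (w + 1) * b, by rw [h6, e]⟩
    · exact h5 ⟨2 ^ (w + 1) * b, by
        rw [← e]
        conv_lhs => rw [h6]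
        ring⟩

/-- a multiplier which changes the sign, or the sign is constant -/
theorem flip_or {o O : ℕ} (ho : Odd o) (hsq : ¬ IsSquare o) (hoO : o ∣ O) (hO : Odd O) :
    (∀ r : ℕ, r % 24 = 17 → Nat.Coprime r O → J((r : ℤ) | o) = -1) ∨
    ∃ u : ℕ, u % 24 = 1 ∧ Nat.Coprime u O ∧ J((u : ℤ) | o) = -1 := by
  obtain ⟨m, b, hbm, hm⟩ := Nat.sq_mul_squarefree o
  have ho0 : o ≠ 0 := by
    rintro rfl
    simp at ho
  have hb0 : b ≠ 0 := by
    rintro rfl
    simp at hbm
    exact ho0 hbm.symm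
  have hm0 : m ≠ 0 := hm.ne_zero
  have hO0 : O ≠ 0 := by
    rintro rfl
    simp at hO
  have hm1 : m ≠ 1 := by
    rintro rfl
    exact hsq ⟨b, by rw [← hbm]; ring⟩
  have hmo : m ∣ o := Dvd.intro_left _ hbm
  have hbo : b ∣ o := by
    rw [← hbm, sq, mul_assoc]
    exact dvd_mul_right _ _
  have hmodd : Odd m := Odd.of_dvd_nat ho hmo
  have hJ : ∀ r : ℕ, Nat.Coprime r O → J((r : ℤ) | o) = J((r : ℤ) | m) := by
    intro r hr
    have hrb : Nat.Coprime r b := hr.coprime_dvd_right (hbo.trans hoO)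
    rw [← hbm, jacobiSym.mul_right' _ (pow_ne_zero 2 hb0) hm0, jacobiSym.pow_right,
      jacobiSym.sq_one (by rw [Int.gcd_natCast_natCast]; exact hrb), one_mul]
  by_cases h3 : m = 3
  · left
    intro r hr hrO
    rw [hJ r hrO, h3, jacobiSym.mod_left]
    have h4 : (r : ℤ) % (3 : ℕ) = 2 := by omega
    rw [h4]
    rw [jacobiSym.at_two (by decide)]
    decide
  · right
    obtain ⟨q, hq, hqm, hq3⟩ : ∃ q : ℕ, q.Prime ∧ q ∣ m ∧ q ≠ 3 := by
      by_contra hcon
      push Not at hcon
      obtain ⟨q, hq, hqm⟩ := Nat.exists_prime_and_dvd hm1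
      have hq3 := hcon q hq hqm
      rw [hq3] at hqm
      obtain ⟨t, ht⟩ := hqm
      have ht1 : t = 1 := by
        by_contra h
        obtain ⟨q', hq', hqt⟩ := Nat.exists_prime_and_dvd h
        have h5 := hcon q' hq' (by rw [ht]; exact hqt.mul_left _)
        rw [h5] at hqt
        obtain ⟨t', ht'⟩ := hqt
        have h6 := hm 3 ⟨t', by rw [ht, ht']; ring⟩
        rw [Nat.isUnit_iff] at h6
        omega
      rw [ht1, mul_one] at ht
      exact h3 ht
    have hqodd : Odd q := Odd.of_dvd_nat hmodd hqm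
    have hq2 : q ≠ 2 := by
      rintro rfl
      exact absurd hqodd (by decide)
    haveI : Fact q.Prime := ⟨hq⟩
    obtain ⟨ν, hν⟩ := FiniteField.exists_nonsquare (F := ZMod q) (by
      rw [ZMod.ringChar_zmod_n]
      exact hq2)
    obtain ⟨n, hn⟩ := hqm
    have hqn : ¬ q ∣ n := by
      rintro ⟨t, ht⟩
      have h6 := hm q ⟨t, by rw [hn, ht]; ring⟩
      rw [Nat.isUnit_iff] at h6
      exact hq.one_lt.ne' h6
    have hn0 : n ≠ 0 := by
      rintro rfl
      rw [mul_zero] at hn
      exact hm0 hn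
    set V : ℕ := 24 * (ordCompl[q] O) with hV
    have hqV : Nat.Coprime q V := by
      apply Nat.Coprime.mul_right
      · rw [hq.coprime_iff_not_dvd]
        intro h
        have h7 : q ∣ 2 ^ 3 * 3 := h
        rcases hq.dvd_mul.1 h7 with h8 | h8
        · exact hq2 ((Nat.prime_dvd_prime_iff_eq hq Nat.prime_two).1 (hq.dvd_of_dvd_pow h8))
        · exact hq3 ((Nat.prime_dvd_prime_iff_eq hq Nat.prime_three).1 h8)
      · exact (hq.coprime_iff_not_dvd).2 (Nat.not_dvd_ordCompl hq hO0)
    obtain ⟨u, hu1, hu2⟩ := Nat.chineseRemainder hqV ν.val 1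
    have hu24 : u % 24 = 1 := by
      have h7 : u ≡ 1 [MOD 24] := hu2.of_mul_right _
      exact h7
    have hunq : ((u : ℕ) : ZMod q) = ν := by
      have h7 : ((u : ℕ) : ZMod q) = ((ν.val : ℕ) : ZMod q) :=
        (ZMod.natCast_eq_natCast_iff _ _ _).2 hu1
      rw [h7, ZMod.natCast_zmod_val]
    have huO : Nat.Coprime u O := by
      by_contra hcon
      obtain ⟨l, hl, h7, h8⟩ := Nat.Prime.not_coprime_iff_dvd.1 hcon
      by_cases hlq : l = q
      · rw [hlq] at h7
        have h9 : ((u : ℕ) : ZMod q) = 0 := (ZMod.natCast_eq_zero_iff _ _).2 h7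
        rw [hunq] at h9
        apply hν
        rw [h9]
        exact ⟨0, by simp⟩
      · have h9 : l ∣ ordCompl[q] O := by
          have h10 : l ∣ ordProj[q] O * ordCompl[q] O := by
            rw [Nat.ordProj_mul_ordCompl_eq_self]
            exact h8
          rcases hl.dvd_mul.1 h10 with h11 | h11
          · exact absurd ((Nat.prime_dvd_prime_iff_eq hl hq).1 (hl.dvd_of_dvd_pow h11)) hlq
          · exact h11
        have h12 : u ≡ 1 [MOD l] := hu2.of_dvd (h9.mul_left _)
        have h13 : (1 : ℕ) ≡ 0 [MOD l] := h12.symm.trans ((Nat.modEq_zero_iff_dvd).2 h7)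
        have h14 := (Nat.modEq_zero_iff_dvd).1 h13
        exact hl.one_lt.ne' (Nat.dvd_one.1 h14)
    refine ⟨u, hu24, huO, ?_⟩
    rw [hJ u huO, hn, jacobiSym.mul_right' _ hq.ne_zero hn0]
    have e1 : J((u : ℤ) | q) = -1 := by
      apply ZMod.nonsquare_iff_jacobiSym_eq_neg_one.2
      push_cast
      rw [hunq]
      exact hν
    have e2 : J((u : ℤ) | n) = 1 := by
      have h15 : n ∣ ordCompl[q] O := by
        apply (Nat.Coprime.dvd_mul_left (k := n) (m := ordProj[q] O) ?_).1
        · rw [Nat.ordProj_mul_ordCompl_eq_self]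
          exact ((Dvd.intro_left q hn.symm).trans hmo).trans hoO
        · exact (Nat.Coprime.pow_right _ ((hq.coprime_iff_not_dvd).2 hqn).symm)
      have h16 : u ≡ 1 [MOD n] := hu2.of_dvd (h15.mul_left _)
      rw [jac_per h16]
      simp
    rw [e1, e2]
    norm_num

open Classical in
/-- **half of the elements are simultaneous non-residues** -/
theorem half_nonres (M : Finset ℤ) (hM : ∀ a ∈ M, NS a) :
    ∃ p₀ : ℕ, p₀.Prime ∧ p₀ % 24 = 17 ∧
      M.card ≤ 2 * (M.filter (fun a : ℤ => ¬ IsSquare ((a : ℤ) : ZMod p₀))).card := by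
  have hM0 : ∀ a ∈ M, a ≠ 0 := fun a ha => (hM a ha).ne_zero
  set O : ℕ := ∏ a ∈ M, op a with hO
  have hOodd : Odd O := by
    rw [hO]
    exact Finset.prod_induction _ Odd (fun a b => Odd.mul) odd_one (fun a ha => op_odd (hM0 a ha))
  have hO0 : 0 < O := hOodd.pos
  have hdvd : ∀ a ∈ M, op a ∣ O := fun a ha => dvd_prod_of_mem _ ha
  set R : Finset ℕ := (range (24 * O)).filter (fun r => r % 24 = 17 ∧ Nat.Coprime r O) with hR
  -- the set of classes is not empty
  have hRne : R.Nonempty := by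
    obtain ⟨p, hp1, hp, hpm⟩ := Nat.forall_exists_prime_gt_and_modEq O (q := 24) (a := 17)
      (by norm_num) (by norm_num)
    refine ⟨p % (24 * O), ?_⟩
    rw [hR, mem_filter, mem_range]
    refine ⟨Nat.mod_lt _ (by positivity), ?_, ?_⟩
    · rw [Nat.mod_mul_right_mod]
      exact hpm
    · have h1 : Nat.Coprime p O := by
        rw [hp.coprime_iff_not_dvd]
        intro h
        have := Nat.le_of_dvd hO0 h
        omega
      have h2 : p % (24 * O) ≡ p [MOD O] := (Nat.mod_modEq p (24 * O)).of_mul_left 24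
      unfold Nat.Coprime at h1 ⊢
      rw [h2.gcd_eq, h1]
  have hRpos : 0 < R.card := card_pos.2 hRne
  have hhalf : ∀ a ∈ M, R.card ≤ 2 * (R.filter (fun r : ℕ => J((r : ℤ) | op a) = -1)).card := by
    intro a ha
    rcases flip_or (op_odd (hM0 a ha)) (hM a ha).nonsq (hdvd a ha) hOodd with h | ⟨u, hu24, huO, huJ⟩
    · have h1 : R.filter (fun r : ℕ => J((r : ℤ) | op a) = -1) = R := by
        apply filter_true_of_mem
        intro r hr
        rw [hR, mem_filter] at hr
        exact h r hr.2.1 hr.2.2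
      rw [h1]
      omega
    · -- multiplication by `u` exchanges the signs
      have h1 : (R.filter (fun r : ℕ => ¬ J((r : ℤ) | op a) = -1)).card ≤
          (R.filter (fun r : ℕ => J((r : ℤ) | op a) = -1)).card := by
        apply card_le_card_of_injOn (fun r => (u * r) % (24 * O))
        · intro r hr
          have hr' : r ∈ R.filter (fun r : ℕ => ¬ J((r : ℤ) | op a) = -1) := hr
          rw [mem_filter, hR, mem_filter, mem_range] at hr'
          obtain ⟨⟨hr1, hr2, hr3⟩, hr4⟩ := hr'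
          change (u * r) % (24 * O) ∈ R.filter (fun r : ℕ => J((r : ℤ) | op a) = -1)
          rw [mem_filter, hR, mem_filter, mem_range]
          refine ⟨⟨Nat.mod_lt _ (by positivity), ?_, ?_⟩, ?_⟩
          · rw [Nat.mod_mul_right_mod, Nat.mul_mod, hu24, hr2]
          · have h2 : (u * r) % (24 * O) ≡ u * r [MOD O] :=
              (Nat.mod_modEq _ (24 * O)).of_mul_left 24
            have h3 : Nat.Coprime (u * r) O := Nat.Coprime.mul_left huO hr3
            unfold Nat.Coprime at h3 ⊢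
            rw [h2.gcd_eq, h3]
          · have h2 : (u * r) % (24 * O) ≡ u * r [MOD op a] :=
              ((Nat.mod_modEq _ (24 * O)).of_mul_left 24).of_dvd (hdvd a ha)
            rw [jac_per h2]
            push_cast
            rw [jacobiSym.mul_left, huJ]
            have h4 : (r : ℤ).gcd (op a) = 1 := by
              rw [Int.gcd_natCast_natCast]
              exact hr3.coprime_dvd_right (hdvd a ha)
            rcases jacobiSym.eq_one_or_neg_one h4 with h5 | h5
            · rw [h5]; norm_num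
            · exact absurd h5 hr4
        · intro r hr r' hr' h
          have hr1 : r ∈ R.filter (fun r : ℕ => ¬ J((r : ℤ) | op a) = -1) := hr
          have hr2 : r' ∈ R.filter (fun r : ℕ => ¬ J((r : ℤ) | op a) = -1) := hr'
          rw [mem_filter, hR, mem_filter, mem_range] at hr1 hr2
          have h2 : u * r ≡ u * r' [MOD 24 * O] := h
          have hc : Nat.Coprime (24 * O) u := by
            apply Nat.Coprime.mul_left _ huO.symm
            have : Nat.gcd 24 u = 1 := by
              rw [Nat.gcd_rec, hu24]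
              norm_num
            exact this
          have h3 : r ≡ r' [MOD 24 * O] := Nat.ModEq.cancel_left_of_coprime hc h2
          unfold Nat.ModEq at h3
          rwa [Nat.mod_eq_of_lt hr1.1.1, Nat.mod_eq_of_lt hr2.1.1] at h3
      have h2 := card_filter_add_card_filter_not (s := R) (fun r : ℕ => J((r : ℤ) | op a) = -1)
      omega
  -- double counting
  obtain ⟨r, hr, hrc⟩ : ∃ r ∈ R, M.card ≤ 2 * (M.filter (fun a : ℤ => J((r : ℤ) | op a) = -1)).card := by
    by_contra hcon
    push Not at hcon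
    have h1 : ∑ r ∈ R, 2 * (M.filter (fun a : ℤ => J((r : ℤ) | op a) = -1)).card <
        ∑ _r ∈ R, M.card := sum_lt_sum_of_nonempty hRne hcon
    have h2 : ∑ r ∈ R, (M.filter (fun a : ℤ => J((r : ℤ) | op a) = -1)).card =
        ∑ a ∈ M, (R.filter (fun r : ℕ => J((r : ℤ) | op a) = -1)).card := by
      simp only [card_filter]
      exact sum_comm
    have h3 : ∑ _a ∈ M, R.card ≤ ∑ a ∈ M, 2 * (R.filter (fun r : ℕ => J((r : ℤ) | op a) = -1)).card :=
      sum_le_sum hhalf
    rw [← mul_sum, h2, mul_sum] at h1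
    rw [sum_const, smul_eq_mul] at h1 h3
    rw [mul_comm] at h3
    omega
  rw [hR, mem_filter] at hr
  obtain ⟨-, hr24, hrO⟩ := hr
  have hc24 : Nat.Coprime r 24 := by
    have : Nat.gcd 24 r = 1 := by
      rw [Nat.gcd_rec, hr24]
      norm_num
    rw [Nat.coprime_comm]
    exact this
  obtain ⟨p₀, -, hp₀, hpm⟩ := Nat.forall_exists_prime_gt_and_modEq 0 (q := 24 * O) (a := r)
    (by positivity) (Nat.Coprime.mul_right hc24 hrO)
  have hp24 : p₀ % 24 = 17 := by
    have h : p₀ ≡ r [MOD 24] := hpm.of_mul_right O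
    unfold Nat.ModEq at h
    omega
  refine ⟨p₀, hp₀, hp24, hrc.trans (Nat.mul_le_mul_left 2 (card_le_card ?_))⟩
  intro a ha
  rw [mem_filter] at ha ⊢
  refine ⟨ha.1, ?_⟩
  haveI : Fact p₀.Prime := ⟨hp₀⟩
  apply ZMod.nonsquare_of_jacobiSym_eq_neg_one
  rw [jac_eq (hM0 a ha.1) (by omega), ← ha.2]
  apply jac_per
  exact (hpm.of_mul_left 24).of_dvd (hdvd a ha.1)

end Pool.Agent.J4H36.ST
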