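import Pool.Agent.J4H36.ST.S7
import Pool.Agent.J4H36.ST.S8

set_option autoImplicit false

/-! # All but boundedly many elements -/

namespace Pool.Agent.J4H36.ST

open Finset Filter
open Pool.Agent.Y855 (Exc MI)

theorem cntS_single (k H : ℕ) (M' : Finset ℤ) (n : ℤ) (hn : n ∈ M') (x : ℕ) :
    cntS k H M' x ≤ cntS k H {n} x := by
  classical
  unfold cntS
  apply card_le_card
  intro m hm
  rw [mem_filter] at hm ⊢
  refine ⟨hm.1, hm.2.1, fun p hp hpp a ha => ?_⟩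
  rw [mem_singleton] at ha
  rw [ha]
  exact hm.2.2 p hp hpp n hn

theorem zero_of_nonsq {q : ℕ} {a : ℤ} (h : ¬ IsSquare ((a : ℤ) : ZMod q)) : a ≠ 0 := by
  rintro rfl
  exact h ⟨0, by simp⟩

theorem final (k : ℕ) (hk : 1 ≤ k) : ∃ B κ : ℕ,
    (∀ M : Finset ℤ, MI M → ∀ q : ℕ, q.Prime → q % 24 = 17 →
      (∀ a ∈ M, ¬ IsSquare ((a : ℤ) : ZMod q)) → ∃ H x₀ : ℕ, ∀ x : ℕ, x₀ ≤ x →
        ∃ E ⊆ M, E.card ≤ B ∧ (x : ℝ) / Real.log x ^ κ ≤ (cntS k H (M \ E) x : ℝ)) ∧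
    (∀ M : Finset ℤ, MI M → (∀ n ∈ M, NS n) → ∃ H x₀ : ℕ, ∀ x : ℕ, x₀ ≤ x →
        ∃ E ⊆ M, E.card ≤ B ∧ ∀ n ∈ M \ E, (x : ℝ) / Real.log x ^ κ ≤ (cntS k H {n} x : ℝ)) ∧
    (∀ M : Set ℤ, (∀ F : Finset ℤ, (F : Set ℤ) ⊆ M → MI F) → (∀ n ∈ M, NS n) →
        ∃ E : Finset ℤ, (E : Set ℤ) ⊆ M ∧ E.card ≤ B ∧ ∀ n ∈ M, n ∉ E →
          ∃ H : ℕ, ∀ y : ℕ, ∃ x : ℕ, y ≤ x ∧ (x : ℝ) / Real.log x ^ κ ≤ (cntS k H {n} x : ℝ)) := by
  classical
  obtain ⟨B, κ, hA⟩ := partA k hk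
  have hB : ∀ M : Finset ℤ, MI M → (∀ n ∈ M, NS n) → ∃ H x₀ : ℕ, ∀ x : ℕ, x₀ ≤ x →
      ∃ E ⊆ M, E.card ≤ 2 * B ∧ ∀ n ∈ M \ E, (x : ℝ) / Real.log x ^ κ ≤ (cntS k H {n} x : ℝ) := by
    intro M hMI hNS
    obtain ⟨H, hH⟩ := hA M (fun a ha => (hNS a ha).ne_zero)
    have hev : ∀ᶠ x : ℕ in atTop, ∀ M₁ ∈ M.powerset, ∀ q : ℕ, q.Prime → q % 24 = 17 →
        (∀ a ∈ M₁, ¬ IsSquare ((a : ℤ) : ZMod q)) →
        ∃ M' ⊆ M₁, (M₁ \ M').card ≤ B ∧ (x : ℝ) / Real.log x ^ κ ≤ (cntS k H M' x : ℝ) := by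
      rw [eventually_all_finset]
      intro M₁ hM₁
      rw [mem_powerset] at hM₁
      by_cases hex : ∃ q : ℕ, q.Prime ∧ q % 24 = 17 ∧ ∀ a ∈ M₁, ¬ IsSquare ((a : ℤ) : ZMod q)
      · obtain ⟨q, hq, hq24, hqM⟩ := hex
        filter_upwards [hH M₁ hM₁ (hMI.subset hM₁) q hq hq24 hqM] with x hx
        intro _ _ _ _
        exact hx
      · filter_upwards with x q hq hq24 hqM
        exact absurd ⟨q, hq, hq24, hqM⟩ hex
    obtain ⟨x₀, hx₀⟩ := eventually_atTop.1 hev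
    refine ⟨H, x₀, fun x hx => ?_⟩
    refine ⟨M.filter (fun n => ¬ (x : ℝ) / Real.log x ^ κ ≤ (cntS k H {n} x : ℝ)), filter_subset _ _,
      ?_, ?_⟩
    · set E := M.filter (fun n => ¬ (x : ℝ) / Real.log x ^ κ ≤ (cntS k H {n} x : ℝ)) with hE
      by_contra hcon
      push Not at hcon
      obtain ⟨q, hq, hq24, hhalf⟩ := half_nonres E (fun a ha => hNS a (mem_filter.1 ha).1)
      set M₁ := E.filter (fun a : ℤ => ¬ IsSquare ((a : ℤ) : ZMod q)) with hM₁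
      have hM₁M : M₁ ⊆ M := (filter_subset _ _).trans (filter_subset _ _)
      obtain ⟨M', hM', hc, hcnt⟩ := hx₀ x hx M₁ (mem_powerset.2 hM₁M) q hq hq24
        (fun a ha => (mem_filter.1 ha).2)
      have hne : M'.Nonempty := by
        rw [nonempty_iff_ne_empty]
        rintro rfl
        rw [sdiff_empty] at hc
        omega
      obtain ⟨n, hn⟩ := hne
      have h1 := (mem_filter.1 (mem_filter.1 (hM' hn)).1).2
      apply h1
      refine hcnt.trans ?_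
      exact_mod_cast cntS_single k H M' n hn x
    · intro n hn
      rw [Finset.mem_sdiff] at hn
      by_contra hcon
      exact hn.2 (mem_filter.2 ⟨hn.1, hcon⟩)
  refine ⟨2 * B, κ, ?_, hB, ?_⟩
  · intro M hMI q hq hq24 hM
    obtain ⟨H, hH⟩ := hA M (fun a ha => zero_of_nonsq (hM a ha))
    obtain ⟨x₀, hx₀⟩ := eventually_atTop.1 (hH M (Subset.refl _) hMI q hq hq24 hM)
    refine ⟨H, x₀, fun x hx => ?_⟩
    obtain ⟨M', hM', hc, hcnt⟩ := hx₀ x hx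
    refine ⟨M \ M', sdiff_subset, by omega, ?_⟩
    rw [Finset.sdiff_sdiff_eq_self hM']
    exact hcnt
  · intro M hMI hNS
    set Bs : Set ℤ := {n ∈ M | ¬ ∃ H : ℕ, ∀ y : ℕ, ∃ x : ℕ, y ≤ x ∧
      (x : ℝ) / Real.log x ^ κ ≤ (cntS k H {n} x : ℝ)} with hBs
    have hBsM : Bs ⊆ M := fun n hn => hn.1
    have hkey : ∀ F : Finset ℤ, (F : Set ℤ) ⊆ Bs → F.card ≤ 2 * B := by
      intro F hF
      obtain ⟨H, x₀, hx₀⟩ := hB F (hMI F (hF.trans hBsM)) (fun n hn => hNS n (hBsM (hF hn)))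
      have h1 : ∀ n ∈ F, ∃ y : ℕ, ∀ x : ℕ, y ≤ x →
          ¬ (x : ℝ) / Real.log x ^ κ ≤ (cntS k H {n} x : ℝ) := by
        intro n hn
        have h2 : ¬ ∃ H : ℕ, ∀ y : ℕ, ∃ x : ℕ, y ≤ x ∧
          (x : ℝ) / Real.log x ^ κ ≤ (cntS k H {n} x : ℝ) := (hF hn).2
        by_contra hcon
        apply h2
        refine ⟨H, fun y => ?_⟩
        by_contra h3
        apply hcon
        refine ⟨y, fun x hx h4 => h3 ⟨x, hx, h4⟩⟩
      choose! y hy using h1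
      obtain ⟨E, hE, hEc, hEn⟩ := hx₀ (max x₀ (F.sup y)) (le_max_left _ _)
      refine le_trans (card_le_card ?_) hEc
      intro n hn
      by_contra hnE
      exact hy n hn _ ((Finset.le_sup (f := y) hn).trans (le_max_right _ _))
        (hEn n (Finset.mem_sdiff.2 ⟨hn, hnE⟩))
    have hfin : Bs.Finite := by
      by_contra hinf
      obtain ⟨F, hF, hFc⟩ := Set.Infinite.exists_subset_card_eq hinf (2 * B + 1)
      have := hkey F hF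
      omega
    refine ⟨hfin.toFinset, ?_, ?_, ?_⟩
    · rw [Set.Finite.coe_toFinset]
      exact hBsM
    · apply hkey
      rw [Set.Finite.coe_toFinset]
    · intro n hn hnE
      rw [Set.Finite.mem_toFinset] at hnE
      by_contra hcon
      exact hnE ⟨hn, hcon⟩

end Pool.Agent.J4H36.ST
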